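import Pool.Agent.P8H60.BC.Blk

/-! # From the progressions of places to all places of a window of given length -/

set_option autoImplicit false

namespace Pool.Agent.P8H60.BC

open Finset
open SG (ord NZ)
open Pool.Agent.R846.UL (cn cn_eq)
open Pool.Agent.P8H60.LM (S_TW)

/-- the sign patterns of a family of functions along a progression -/
def pb (F : Set (ℕ → ℝ)) (b s k : ℕ) (y : Fin k → ℝ) : Set (Set (Fin k)) :=
  {A | ∃ f ∈ F, A = {i : Fin k | f (b + i * s) ≤ y i}}

/-- the place is near -/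
def nr (δ : ℝ) (L n : ℕ) (f : ℕ → ℝ) (j : ℕ) : Prop :=
  |ord (n + j) - f j| ≤ δ * Real.sqrt (2 * Real.log L) / Real.log (ord (n + j))

/-- the number of the near places of a window of length `l` -/
noncomputable def hw (δ : ℝ) (L l n : ℕ) (f : ℕ → ℝ) : ℕ := ({j | j ≤ l ∧ nr δ L n f j} : Set ℕ).ncard

open Classical in
lemma hw_eq (δ : ℝ) (L l n : ℕ) (f : ℕ → ℝ) : hw δ L l n f =
    ((range (l + 1)).filter (fun j => nr δ L n f j)).card := by
  unfold hw
  rw [← Set.ncard_coe_finset]
  congr 1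
  ext j
  simp only [Set.mem_ofPred_eq, coe_filter, mem_range, Nat.lt_succ_iff]

open Classical in
lemma hit_eq {K : ℕ} (δ : ℝ) (L n b s : ℕ) (f : ℕ → ℝ) :
    hit δ L n (fun i : Fin K => b + i * s) (fun i => f (b + i * s)) =
    ((range K).filter (fun i => nr δ L n f (b + i * s))).card := by
  unfold hit
  have e1 : ({i | |ord (n + (b + (i : ℕ) * s)) - f (b + i * s)| ≤ δ * Real.sqrt (2 * Real.log L) /
      Real.log (ord (n + (b + i * s)))} : Set (Fin K)) =
      ((univ.filter fun i : Fin K => nr δ L n f (b + i * s) : Finset (Fin K)) : Set (Fin K)) := by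
    ext i
    simp [nr]
  rw [e1, Set.ncard_coe_finset]
  refine card_bij (fun i _ => (i : ℕ)) (fun i hi => ?_) (fun i _ i' _ h => Fin.ext h) (fun i hi => ?_)
  · rw [mem_filter] at hi
    rw [mem_filter, mem_range]
    exact ⟨i.2, hi.2⟩
  · rw [mem_filter, mem_range] at hi
    exact ⟨⟨i, hi.1⟩, by rw [mem_filter]; exact ⟨mem_univ _, hi.2⟩, rfl⟩

open Classical in
/-- splitting the places into progressions -/
lemma split (s K : ℕ) (hs : 1 ≤ s) (P : ℕ → Prop) : ((range (s * K)).filter P).card =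
    ∑ b ∈ range s, ((range K).filter (fun i => P (b + i * s))).card := by
  have h1 : ((range (s * K)).filter P).card =
      ∑ b ∈ range s, (((range (s * K)).filter P).filter (fun j => j % s = b)).card := by
    refine card_eq_sum_card_fiberwise (f := fun j => j % s) fun j _ => ?_
    rw [mem_coe, mem_range]
    exact Nat.mod_lt _ (by omega)
  rw [h1]
  refine sum_congr rfl fun b hb => ?_
  rw [mem_range] at hb
  refine (card_bij (fun i _ => b + i * s) (fun i hi => ?_) (fun i _ i' _ h => ?_) (fun j hj => ?_)).symm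
  · rw [mem_filter, mem_range] at hi
    rw [mem_filter, mem_filter, mem_range]
    refine ⟨⟨?_, hi.2⟩, ?_⟩
    · have h2 : (i + 1) * s ≤ K * s := Nat.mul_le_mul_right s hi.1
      have h3 : (i + 1) * s = i * s + s := by ring
      have h4 : K * s = s * K := by ring
      omega
    · rw [Nat.add_mul_mod_self_right, Nat.mod_eq_of_lt hb]
  · have h2 : i * s = i' * s := by omega
    exact Nat.eq_of_mul_eq_mul_right (by omega) h2
  · rw [mem_filter, mem_filter, mem_range] at hj
    obtain ⟨⟨h2, h3⟩, h4⟩ := hj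
    have h5 : b + j / s * s = j := by
      rw [← h4]
      have := Nat.mod_add_div j s
      rw [mul_comm] at this
      exact this
    refine ⟨j / s, ?_, h5⟩
    rw [mem_filter, mem_range]
    refine ⟨Nat.div_lt_of_lt_mul h2, ?_⟩
    rw [h5]
    exact h3

/-- **the theorem for windows of a given length** -/
theorem fix_bc (hTW : S_TW) (hGL : S_GL) (hCH : S_CH) (G : ℕ → ℝ)
    (hG : ∀ ε : ℝ, 0 < ε → ∃ k₀ : ℕ, ∀ k ≥ k₀, G k ≤ Real.exp (ε * k)) {δ ε η : ℝ} (hδ : 0 < δ)
    (hε : 0 < ε) (hη : 0 < η) : ∃ L₀ : ℕ, ∀ L N : ℕ, L₀ ≤ L → 8 * (L * Real.log L) ≤ Real.log N →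
    ∀ F : Set (ℕ → ℝ), (∀ f ∈ F, ∀ b : ℝ, (fun j => f j + b) ∈ F) →
    (∀ (b s k : ℕ) (y : Fin k → ℝ), 1 ≤ s → ((pb F b s k y).ncard : ℝ) ≤ G k) →
    cn N {n | ∃ f ∈ F, (pG δ + ε) * L ≤ (hw δ L L n f : ℝ)} ≤ η * N := by
  classical
  obtain ⟨c, M, hc, hord⟩ := ord_bc hTW hGL hCH hδ (show (0 : ℝ) < ε / 2 by linarith)
  obtain ⟨e, he, hord⟩ := hord (η * (ε / 4)) (by positivity)
  -- the number of places
  obtain ⟨k₀, hk₀⟩ := hG (c / (M + 1)) (by positivity)
  obtain ⟨k₁, hk₁⟩ : ∃ k₁ : ℕ, ∀ k ≥ k₁, Real.exp (-(c * k)) ≤ e := by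
    obtain ⟨k₁, hk₁⟩ := exists_nat_ge (-Real.log e / c)
    refine ⟨k₁, fun k hk => ?_⟩
    have h1 : -Real.log e / c ≤ k := hk₁.trans (by exact_mod_cast hk)
    rw [div_le_iff₀ hc] at h1
    calc Real.exp (-(c * k)) ≤ Real.exp (Real.log e) := Real.exp_le_exp.2 (by linarith)
      _ = e := Real.exp_log he
  obtain ⟨K, hK⟩ : ∃ K : ℕ, K = k₀ + k₁ + 1 := ⟨_, rfl⟩
  have hK1 : 1 ≤ K := by omega
  have hK0 : (0 : ℝ) < K := by exact_mod_cast hK1
  obtain ⟨g, hg⟩ : ∃ g : ℝ, g = max (G K) 0 := ⟨_, rfl⟩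
  have hg0 : 0 ≤ g := by rw [hg]; exact le_max_right _ _
  have hgG : G K ≤ g := by rw [hg]; exact le_max_left _ _
  have hgM : g ^ M ≤ Real.exp (c * K) := by
    have h1 : g ≤ Real.exp (c / (M + 1) * K) := by
      rw [hg]
      exact max_le (hk₀ K (by omega)) (Real.exp_pos _).le
    calc g ^ M ≤ Real.exp (c / (M + 1) * K) ^ M := pow_le_pow_left₀ hg0 h1 M
      _ = Real.exp (M * (c / (M + 1) * K)) := by rw [← Real.exp_nat_mul]
      _ ≤ Real.exp (c * K) := by
          apply Real.exp_le_exp.2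
          have h2 : (M : ℝ) * (c / (M + 1) * K) = (M / (M + 1)) * (c * K) := by
            field_simp
          rw [h2]
          have h3 : (M : ℝ) / (M + 1) ≤ 1 := by
            rw [div_le_one (by positivity)]
            linarith
          calc (M : ℝ) / (M + 1) * (c * K) ≤ 1 * (c * K) :=
                mul_le_mul_of_nonneg_right h3 (by positivity)
            _ = c * K := one_mul _
  obtain ⟨L₀, hord⟩ := hord K g hK1 hgM (hk₁ K (by omega)) (1 / (2 * K)) (by positivity)
  refine ⟨L₀ + 2 * K + (⌈4 / ε⌉₊ + 1) * K, fun L N hL hLN F hF1 hF2 => ?_⟩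
  obtain ⟨s, hs⟩ : ∃ s : ℕ, s = L / K := ⟨_, rfl⟩
  have hsK : s * K ≤ L := by rw [hs]; exact Nat.div_mul_le_self L K
  have hsK2 : L < s * K + K := by
    rw [hs]
    have := Nat.lt_div_mul_add hK1 (a := L)
    exact this
  have hs4 : ⌈4 / ε⌉₊ + 1 ≤ s := by
    rw [hs, Nat.le_div_iff_mul_le hK1]
    omega
  have hs1 : 1 ≤ s := by omega
  have hsr : 4 / ε ≤ s := (Nat.le_ceil _).trans (by exact_mod_cast (by omega : ⌈4 / ε⌉₊ ≤ s))
  rw [div_le_iff₀ hε] at hsr
  have hs0 : (0 : ℝ) < s := by exact_mod_cast hs1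
  have hsL : (1 : ℝ) / (2 * K) * L ≤ s := by
    have h1 : L ≤ 2 * (s * K) := by
      have : K ≤ s * K := Nat.le_mul_of_pos_left K (by omega)
      omega
    have h2 : (L : ℝ) ≤ 2 * (s * K) := by exact_mod_cast h1
    rw [div_mul_eq_mul_div, one_mul, div_le_iff₀ (by positivity)]
    linarith
  -- the exceptional sets of the progressions
  set Eb : ℕ → ℕ → Prop := fun b n => ∃ v ∈ {v : Fin K → ℝ | ∃ f ∈ F, v = fun i : Fin K => f (b + i * s)},
    (pG δ + ε / 2) * K ≤ (hit δ L n (fun i : Fin K => b + i * s) v : ℝ) with hEb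
  have hb : ∀ b ∈ range s, (((Icc 1 N).filter (Eb b)).card : ℝ) ≤ η * (ε / 4) * N := by
    intro b hb
    rw [mem_range] at hb
    have h1 := hord L N (by omega) hLN (fun i : Fin K => b + i * s) (fun i => by
      have h2 : ((i : ℕ) + 1) * s ≤ K * s := Nat.mul_le_mul_right s i.2
      have h3 : ((i : ℕ) + 1) * s = i * s + s := by ring
      have h4 : K * s = s * K := by ring
      show b + i * s ≤ L
      omega) (fun i j hij => by
      have h2 : ((b + (i : ℕ) * s : ℕ) : ℝ) - ((b + (j : ℕ) * s : ℕ) : ℝ) = (((i : ℕ) : ℝ) - (j : ℕ)) * s := by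
        push_cast; ring
      show 1 / (2 * (K : ℝ)) * L ≤ |((b + (i : ℕ) * s : ℕ) : ℝ) - ((b + (j : ℕ) * s : ℕ) : ℝ)|
      rw [h2, abs_mul, abs_of_pos hs0]
      have h3 : (1 : ℝ) ≤ |((i : ℕ) : ℝ) - (j : ℕ)| := by
        have h4 : ((i : ℕ) : ℤ) - (j : ℕ) ≠ 0 := fun h5 => hij (Fin.ext (by omega))
        have h5 := Int.one_le_abs h4
        exact_mod_cast h5
      nlinarith) {v : Fin K → ℝ | ∃ f ∈ F, v = fun i : Fin K => f (b + i * s)} (by
      rintro v ⟨f, hf, rfl⟩ c
      exact ⟨_, hF1 f hf c, rfl⟩) (by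
      intro y
      have h2 := hF2 b s K y hs1
      have h3 : pv {v : Fin K → ℝ | ∃ f ∈ F, v = fun i : Fin K => f (b + i * s)} y = pb F b s K y := by
        ext A
        constructor
        · rintro ⟨v, ⟨f, hf, rfl⟩, rfl⟩
          exact ⟨f, hf, rfl⟩
        · rintro ⟨f, hf, rfl⟩
          exact ⟨_, ⟨f, hf, rfl⟩, rfl⟩
      rw [h3]
      exact h2.trans hgG)
    rw [cn_eq] at h1
    exact h1
  rw [cn_eq]
  set E : ℕ → Prop := fun n => ∃ f ∈ F, (pG δ + ε) * L ≤ (hw δ L L n f : ℝ) with hE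
  -- many progressions are exceptional
  have hmany : ∀ n ∈ (Icc 1 N).filter E, ε / 4 * s ≤ (((range s).filter (fun b => Eb b n)).card : ℝ) := by
    intro n hn
    obtain ⟨f, hf, hcnt⟩ := (mem_filter.1 hn).2
    rw [hw_eq] at hcnt
    have h1 : ((range (L + 1)).filter (fun j => nr δ L n f j)).card ≤
        ((range (s * K)).filter (fun j => nr δ L n f j)).card + K := by
      have h2 : (range (L + 1)).filter (fun j => nr δ L n f j) ⊆
          (range (s * K)).filter (fun j => nr δ L n f j) ∪ Ico (s * K) (s * K + K) := by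
        intro j hj
        rw [mem_filter, mem_range] at hj
        rw [mem_union, mem_filter, mem_range, mem_Ico]
        by_cases h : j < s * K
        · exact Or.inl ⟨h, hj.2⟩
        · exact Or.inr ⟨by omega, by omega⟩
      have h3 := (card_le_card h2).trans (card_union_le _ _)
      rw [Nat.card_Ico] at h3
      omega
    rw [split s K hs1] at h1
    have h2 : ∀ b ∈ range s, (((range K).filter (fun i => nr δ L n f (b + i * s))).card : ℝ) ≤
        (pG δ + ε / 2) * K + (if Eb b n then (K : ℝ) else 0) := by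
      intro b _
      split_ifs with h
      · have h3 : ((range K).filter (fun i => nr δ L n f (b + i * s))).card ≤ K := by
          refine (card_filter_le _ _).trans ?_
          rw [card_range]
        have h4 : (((range K).filter (fun i => nr δ L n f (b + i * s))).card : ℝ) ≤ K := by
          exact_mod_cast h3
        have h5 : 0 ≤ (pG δ + ε / 2) * K := by
          have : 0 ≤ pG δ := MeasureTheory.measureReal_nonneg
          positivity
        linarith
      · rw [add_zero]
        by_contra hcon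
        push Not at hcon
        apply h
        refine ⟨_, ⟨f, hf, rfl⟩, ?_⟩
        rw [hit_eq]
        exact hcon.le
    have h3 : ((∑ b ∈ range s, ((range K).filter (fun i => nr δ L n f (b + i * s))).card : ℕ) : ℝ) ≤
        s * ((pG δ + ε / 2) * K) + K * ((range s).filter (fun b => Eb b n)).card := by
      push_cast
      refine (sum_le_sum h2).trans (le_of_eq ?_)
      rw [sum_add_distrib, sum_const, card_range, nsmul_eq_mul, ← sum_filter, sum_const, nsmul_eq_mul]
      ring
    have h4 : (((range (L + 1)).filter (fun j => nr δ L n f j)).card : ℝ) ≤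
        ((∑ b ∈ range s, ((range K).filter (fun i => nr δ L n f (b + i * s))).card : ℕ) : ℝ) + K := by
      exact_mod_cast h1
    have h5 : (s : ℝ) * K ≤ L := by exact_mod_cast hsK
    have hp0 : 0 ≤ pG δ := MeasureTheory.measureReal_nonneg
    have h6 : (pG δ + ε) * (s * K) ≤ (pG δ + ε) * L := mul_le_mul_of_nonneg_left h5 (by linarith)
    set X := (((range s).filter (fun b => Eb b n)).card : ℝ)
    have h7 : (ε / 2 * s - 1) * K ≤ X * K := by nlinarith
    have h8 : ε / 2 * s - 1 ≤ X := le_of_mul_le_mul_right h7 hK0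
    nlinarith
  -- double counting
  have hdc : ∑ n ∈ (Icc 1 N).filter E, (((range s).filter (fun b => Eb b n)).card : ℝ) ≤
      ∑ b ∈ range s, (((Icc 1 N).filter (Eb b)).card : ℝ) := by
    have h1 : ∀ n, (((range s).filter (fun b => Eb b n)).card : ℝ) =
        ∑ b ∈ range s, if Eb b n then (1 : ℝ) else 0 := by
      intro n
      rw [card_filter]
      push_cast
      rfl
    have h2 : ∀ b, (((Icc 1 N).filter (Eb b)).card : ℝ) = ∑ n ∈ Icc 1 N, if Eb b n then (1 : ℝ) else 0 := by
      intro b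
      rw [card_filter]
      push_cast
      rfl
    simp only [h1, h2]
    rw [sum_comm]
    refine sum_le_sum fun b _ => ?_
    refine sum_le_sum_of_subset_of_nonneg (filter_subset _ _) fun n _ _ => ?_
    split_ifs <;> norm_num
  have h1 : (((Icc 1 N).filter E).card : ℝ) * (ε / 4 * s) ≤ s * (η * (ε / 4) * N) := by
    calc (((Icc 1 N).filter E).card : ℝ) * (ε / 4 * s) =
          ∑ n ∈ (Icc 1 N).filter E, ε / 4 * (s : ℝ) := by rw [sum_const, nsmul_eq_mul]
      _ ≤ _ := sum_le_sum hmany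
      _ ≤ _ := hdc
      _ ≤ ∑ b ∈ range s, η * (ε / 4) * (N : ℝ) := sum_le_sum hb
      _ = _ := by rw [sum_const, card_range, nsmul_eq_mul]
  have h2 : (((Icc 1 N).filter E).card : ℝ) * (ε / 4 * s) ≤ (η * N) * (ε / 4 * s) := by
    calc _ ≤ _ := h1
      _ = _ := by ring
  exact le_of_mul_le_mul_right h2 (by positivity)

end Pool.Agent.P8H60.BC
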