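import Pool.Agent.P8H60.BC.Stm

/-! # The exceptional set has small Gaussian measure -/

set_option autoImplicit false

namespace Pool.Agent.P8H60.BC

open Filter Topology MeasureTheory ProbabilityTheory

lemma Bs_closed (δ : ℝ) {M : ℕ} (θ : Fin M → ℝ) (c : Fin M → Bool) : IsClosed (Bs δ θ c) := by
  have e1 : Bs δ θ c = (⋂ m, {z : ℝ | c m = true → z ≤ θ m + δ}) ∩ ⋂ m, {z : ℝ | c m = false → θ m - δ ≤ z} := by
    ext z
    simp [Bs]
  rw [e1]
  refine (isClosed_iInter fun m => ?_).inter (isClosed_iInter fun m => ?_)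
  · by_cases h : c m = true
    · simp only [h, true_implies]
      exact isClosed_Iic
    · simp only [h]
      simp
  · by_cases h : c m = false
    · simp only [h, true_implies]
      exact isClosed_Ici
    · simp only [h]
      simp

/-- the number of the coordinates in the given sets -/
noncomputable def cnt {K : ℕ} (B : Fin K → Set ℝ) (z : Fin K → ℝ) : ℕ := ({i | z i ∈ B i} : Set (Fin K)).ncard

lemma cnt_closed {K : ℕ} (B : Fin K → Set ℝ) (hB : ∀ i, IsClosed (B i)) (q : ℝ) :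
    IsClosed {z : Fin K → ℝ | q ≤ cnt B z} := by
  classical
  have e1 : {z : Fin K → ℝ | q ≤ cnt B z} = ⋃ J ∈ (Finset.univ : Finset (Finset (Fin K))).filter
      (fun J => q ≤ (J.card : ℝ)), ⋂ i ∈ J, {z : Fin K → ℝ | z i ∈ B i} := by
    ext z
    simp only [Set.mem_ofPred_eq, Set.mem_iUnion, Set.mem_iInter, Finset.mem_filter, Finset.mem_univ,
      true_and, exists_prop]
    constructor
    · intro h
      refine ⟨Finset.univ.filter fun i => z i ∈ B i, ?_, fun i hi => (Finset.mem_filter.1 hi).2⟩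
      have e2 : ({i | z i ∈ B i} : Set (Fin K)) = ((Finset.univ.filter fun i => z i ∈ B i : Finset (Fin K)) : Set (Fin K)) := by
        ext i; simp
      unfold cnt at h
      rwa [e2, Set.ncard_coe_finset] at h
    · rintro ⟨J, hJ, h⟩
      refine hJ.trans ?_
      unfold cnt
      rw [← Set.ncard_coe_finset]
      exact_mod_cast Set.ncard_le_ncard (fun i hi => h i hi) (Set.toFinite _)
  rw [e1]
  refine Set.Finite.isClosed_biUnion (Finset.finite_toSet _) fun J _ => ?_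
  refine isClosed_biInter fun i _ => (hB i).preimage (continuous_apply i)

/-- the exceptional set -/
def FS {K M : ℕ} (δ q : ℝ) (θ : Fin M → ℝ) (𝒞 : Finset (Fin K → Fin M → Bool)) : Set (Fin K → ℝ) :=
  {z | ∃ c ∈ 𝒞, q ≤ cnt (fun i => Bs δ θ (c i)) z}

lemma FS_closed {K M : ℕ} (δ q : ℝ) (θ : Fin M → ℝ) (𝒞 : Finset (Fin K → Fin M → Bool)) :
    IsClosed (FS δ q θ 𝒞) := by
  have e1 : FS δ q θ 𝒞 = ⋃ c ∈ 𝒞, {z : Fin K → ℝ | q ≤ cnt (fun i => Bs δ θ (c i)) z} := by
    ext z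
    simp [FS]
  rw [e1]
  exact Set.Finite.isClosed_biUnion (Finset.finite_toSet _) fun c _ =>
    cnt_closed _ (fun i => Bs_closed _ _ _) _

/-- **the exceptional set has small Gaussian measure** -/
theorem gau (hGL : S_GL) (hCH : S_CH) (δ ε : ℝ) (hδ : 0 < δ) (hε : 0 < ε) :
    ∃ (δ' : ℝ) (M : ℕ) (θ : Fin M → ℝ) (c : ℝ), δ < δ' ∧ 0 < c ∧ ∀ (K : ℕ)
      (𝒞 : Finset (Fin K → Fin M → Bool)), (𝒞.card : ℝ) ≤ Real.exp (c * K) →
      (Measure.pi fun _ : Fin K => gaussianReal 0 1).real (FS δ' ((pG δ + ε) * K) θ 𝒞) ≤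
        Real.exp (-(c * K)) := by
  obtain ⟨δ', M, θ, hδ', hB⟩ := hGL δ (ε / 2) hδ (by linarith)
  have hp0 : 0 ≤ pG δ := measureReal_nonneg
  obtain ⟨c, hc, hch⟩ := hCH (pG δ + ε / 2) (ε / 2) (by linarith) (by linarith)
  refine ⟨δ', M, θ, c / 2, hδ', by linarith, fun K 𝒞 h𝒞 => ?_⟩
  have e1 : FS δ' ((pG δ + ε) * K) θ 𝒞 =
      ⋃ c ∈ 𝒞, {z : Fin K → ℝ | (pG δ + ε) * K ≤ cnt (fun i => Bs δ' θ (c i)) z} := by
    ext z
    simp [FS]
  rw [e1]
  refine (measureReal_biUnion_finset_le _ _).trans ?_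
  have h1 : ∀ y ∈ 𝒞, (Measure.pi fun _ : Fin K => gaussianReal 0 1).real
      {z : Fin K → ℝ | (pG δ + ε) * K ≤ cnt (fun i => Bs δ' θ (y i)) z} ≤ Real.exp (-(c * K)) := by
    intro y _
    have h2 := hch K (fun i => Bs δ' θ (y i)) (fun i => (Bs_closed _ _ _).measurableSet) (fun i => hB (y i))
    have e2 : pG δ + ε / 2 + ε / 2 = pG δ + ε := by ring
    rw [e2] at h2
    exact h2
  refine (Finset.sum_le_sum h1).trans ?_
  rw [Finset.sum_const, nsmul_eq_mul]
  calc (𝒞.card : ℝ) * Real.exp (-(c * K)) ≤ Real.exp (c / 2 * K) * Real.exp (-(c * K)) :=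
        mul_le_mul_of_nonneg_right h𝒞 (Real.exp_pos _).le
    _ = Real.exp (-(c / 2 * K)) := by
        rw [← Real.exp_add]
        congr 1
        ring

end Pool.Agent.P8H60.BC
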