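import Pool.Agent.P8H60.BC.LRun
import Pool.Agent.R846.VS.J

/-! # The lower bound for the ordinates up to `N`, given places -/

set_option autoImplicit false

open Filter Topology MeasureTheory Set

namespace Pool.Agent.P8H60.BC

open SG (ord NZ)
open Pool.Agent.R846.UL (cn cn_eq)
open Pool.Agent.R846.VS (palm_unif)
open Pool.Agent.P8H60.LM (S_TW nearQ near_all2)

/-- the numerical conditions hold for large `L` -/
lemma num_A {δ δ' Q : ℝ} (hδ' : 0 < δ') (hδδ : δ' < δ) (hQ : 0 < Q) : ∃ L₀ : ℕ, ∀ (L : ℕ) (T r : ℝ),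
    L₀ ≤ L → 1 ≤ T → ((2 * L : ℕ) : ℝ) * Real.log ((2 * L : ℕ) : ℝ) ≤ Real.log T →
    r = Real.sqrt (Real.log ((2 * L : ℕ) : ℝ)) →
    1 ≤ r ∧ 1 ≤ L ∧ 10 ≤ Real.log T ∧ Real.sqrt 2 * (Real.pi / r) ≤ (δ - δ') / 8 ∧
    r * (1 + 2 / Real.log T) * ((δ + δ') / 2) ≤ δ * Real.sqrt (Real.log L) ∧
    2 * L + 1 + Q * r + 2 * ((δ - δ') / 80 * r) ≤ Real.log T / (2 * Real.pi) ∧
    4 * L ≤ Real.log T := by
  have hpi := Real.pi_pos
  have hpi4 := Real.pi_lt_d2
  have hδ : 0 < δ := by linarith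
  obtain ⟨κ, hκ⟩ : ∃ κ : ℝ, κ = (δ - δ') / (δ + δ') := ⟨_, rfl⟩
  have hκ0 : 0 < κ := by rw [hκ]; exact div_pos (by linarith) (by linarith)
  obtain ⟨u, hu⟩ : ∃ u : ℝ, u = 10 + (40 / (δ - δ')) ^ 2 + 8 / κ + 7 * (3 + Q + (δ - δ')) := ⟨_, rfl⟩
  have hu0 : 10 ≤ u := by
    rw [hu]
    have h1 : 0 ≤ (40 / (δ - δ')) ^ 2 := sq_nonneg _
    have h2 : 0 < 8 / κ := by positivity
    linarith
  obtain ⟨L₀, hL₀⟩ := exists_nat_ge (Real.exp u)
  refine ⟨L₀, fun L T r hL hT hlog hr => ?_⟩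
  have hLe : Real.exp u ≤ L := hL₀.trans (by exact_mod_cast hL)
  have hL0 : (0 : ℝ) < L := lt_of_lt_of_le (Real.exp_pos _) hLe
  have hL1 : 1 ≤ L := by exact_mod_cast hL0
  have hlL : u ≤ Real.log L := by
    rw [Real.le_log_iff_exp_le hL0]
    exact hLe
  have h2L : ((2 * L : ℕ) : ℝ) = 2 * L := by push_cast; ring
  rw [h2L] at hlog hr
  have hlog2 : Real.log (2 * L) ≤ Real.log L + 1 := by
    rw [Real.log_mul (by norm_num) hL0.ne']
    have := Real.log_two_lt_d9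
    linarith
  have hlog2' : Real.log L ≤ Real.log (2 * L) := Real.log_le_log hL0 (by linarith)
  have hr2 : r ^ 2 = Real.log (2 * L) := by
    rw [hr]
    exact Real.sq_sqrt (by linarith)
  have hr0 : 0 ≤ r := by rw [hr]; exact Real.sqrt_nonneg _
  have hr1 : 1 ≤ r := by nlinarith
  have hL1r : (1 : ℝ) ≤ L := by exact_mod_cast hL1
  have hlT : 2 * (L : ℝ) * u ≤ Real.log T := by nlinarith
  have hu1 : 0 < 40 / (δ - δ') := div_pos (by norm_num) (by linarith)
  have hr40 : 40 / (δ - δ') ≤ r := by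
    have h1 : (40 / (δ - δ')) ^ 2 ≤ r ^ 2 := by
      rw [hr2]
      have : 0 < 8 / κ := by positivity
      linarith
    exact le_of_sq_le_sq h1 hr0
  refine ⟨hr1, hL1, by nlinarith, ?_, ?_, ?_, by nlinarith⟩
  · have h1 : Real.sqrt 2 * Real.pi ≤ 5 := by
      have h7 : Real.sqrt 2 ≤ 3 / 2 := by
        rw [Real.sqrt_le_left (by norm_num)]
        norm_num
      nlinarith [Real.sqrt_nonneg 2]
    rw [← mul_div_assoc, div_le_iff₀ (by linarith)]
    rw [div_le_iff₀ (by linarith)] at hr40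
    linarith
  · -- comparison of the logarithms
    have hsl : 0 < Real.sqrt (Real.log L) := Real.sqrt_pos.2 (by linarith)
    have hs2 : Real.sqrt (Real.log L) ^ 2 = Real.log L := Real.sq_sqrt (by linarith)
    have hlL8 : 8 / κ ≤ Real.log L := by
      have h1 : 0 ≤ (40 / (δ - δ')) ^ 2 := sq_nonneg _
      linarith
    rw [div_le_iff₀ hκ0] at hlL8
    set v := Real.log L with hv
    have hv0 : 0 < v := by linarith
    -- `r ≤ √v (1 + 1 / v)`
    have h1 : r ≤ Real.sqrt v * (1 + 1 / v) := by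
      apply le_of_sq_le_sq _ (by positivity)
      rw [mul_pow, hs2, hr2]
      have h2 : v * (1 + 1 / v) ^ 2 = v + 2 + 1 / v := by field_simp; ring
      rw [h2]
      have : 0 < 1 / v := by positivity
      linarith
    have h2 : 2 / Real.log T ≤ 1 / v := by
      rw [div_le_div_iff₀ (by nlinarith) hv0]
      have h3 : Real.log L ≤ L := by
        have := Real.log_le_sub_one_of_pos hL0
        linarith
      nlinarith
    have h3 : r * (1 + 2 / Real.log T) ≤ Real.sqrt v * (1 + 1 / v) * (1 + 1 / v) :=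
      mul_le_mul h1 (by linarith) (by
        have : 0 < Real.log T := by nlinarith
        positivity) (by positivity)
    have h4 : (1 + 1 / v) * (1 + 1 / v) ≤ 1 + κ := by
      have h5 : 1 / v ≤ κ / 8 := by
        rw [div_le_div_iff₀ hv0 (by norm_num)]
        linarith
      have h6 : 1 / v ≤ 1 := by
        rw [div_le_one hv0]
        linarith
      have h7 : 0 < 1 / v := by positivity
      have h8 : (1 / v) * (1 / v) ≤ (1 / v) * 1 := mul_le_mul_of_nonneg_left h6 h7.le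
      have h9 : (1 + 1 / v) * (1 + 1 / v) = 1 + 2 * (1 / v) + (1 / v) * (1 / v) := by ring
      rw [h9]
      linarith
    have h5 : (1 + κ) * ((δ + δ') / 2) = δ := by
      rw [hκ]
      have : δ + δ' ≠ 0 := by linarith
      field_simp
      ring
    calc r * (1 + 2 / Real.log T) * ((δ + δ') / 2)
        ≤ Real.sqrt v * (1 + 1 / v) * (1 + 1 / v) * ((δ + δ') / 2) :=
          mul_le_mul_of_nonneg_right h3 (by linarith)
      _ = Real.sqrt v * ((1 + 1 / v) * (1 + 1 / v)) * ((δ + δ') / 2) := by ring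
      _ ≤ Real.sqrt v * (1 + κ) * ((δ + δ') / 2) :=
          mul_le_mul_of_nonneg_right (mul_le_mul_of_nonneg_left h4 hsl.le) (by linarith)
      _ = Real.sqrt v * ((1 + κ) * ((δ + δ') / 2)) := by ring
      _ = δ * Real.sqrt v := by rw [h5]; ring
  · rw [le_div_iff₀ (by positivity)]
    have hrL : r ≤ 2 * L := by
      have h1 : r ^ 2 ≤ 2 * L := by
        rw [hr2]
        have := Real.log_le_sub_one_of_pos (show (0 : ℝ) < 2 * L by linarith)
        linarith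
      nlinarith
    have h1 : 2 * (L : ℝ) + 1 + Q * r + 2 * ((δ - δ') / 80 * r) ≤ (2 * L) * (3 + Q + (δ - δ')) := by
      have h2 : Q * r ≤ Q * (2 * L) := mul_le_mul_of_nonneg_left hrL hQ.le
      have h3 : (δ - δ') * r ≤ (δ - δ') * (2 * L) := mul_le_mul_of_nonneg_left hrL (by linarith)
      have h4 : 0 ≤ (δ - δ') * r := mul_nonneg (by linarith) hr0
      nlinarith
    have h2 : (2 * (L : ℝ)) * (3 + Q + (δ - δ')) * (2 * Real.pi) ≤ 2 * L * u := by
      have h3 : (3 + Q + (δ - δ')) * (2 * Real.pi) ≤ u := by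
        have h4 : (3 + Q + (δ - δ')) * (2 * Real.pi) ≤ (3 + Q + (δ - δ')) * 7 :=
          mul_le_mul_of_nonneg_left (by linarith) (by linarith)
        have h5 : 0 ≤ (40 / (δ - δ')) ^ 2 := sq_nonneg _
        have h6 : 0 < 8 / κ := by positivity
        linarith
      calc (2 * (L : ℝ)) * (3 + Q + (δ - δ')) * (2 * Real.pi) =
            (2 * L) * ((3 + Q + (δ - δ')) * (2 * Real.pi)) := by ring
        _ ≤ 2 * L * u := mul_le_mul_of_nonneg_left h3 (by positivity)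
    have h3 : (2 * (L : ℝ) + 1 + Q * r + 2 * ((δ - δ') / 80 * r)) * (2 * Real.pi) ≤
        (2 * L) * (3 + Q + (δ - δ')) * (2 * Real.pi) := mul_le_mul_of_nonneg_right h1 (by positivity)
    linarith

/-- **for most heights the arithmetic progression is near at many places** -/
theorem run_A (hTW : S_TW) (hFC : S_FC) (hLG : S_LG) {δ ε η : ℝ} (hδ : 0 < δ) (hε : 0 < ε)
    (hη : 0 < η) : ∃ K₀ : ℕ, ∀ K : ℕ, K₀ ≤ K → 1 ≤ K → ∀ κ : ℝ, 0 < κ → ∀ S' : ℕ, ∃ L₀ : ℕ,
    ∀ (L : ℕ) (T : ℝ), L₀ ≤ L → 1 ≤ T → ((2 * L : ℕ) : ℝ) * Real.log ((2 * L : ℕ) : ℝ) ≤ Real.log T →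
    ∀ k : Fin (K + K) → ℕ, (∀ i, k i ≤ L) → (∀ i j, i ≠ j → κ * L ≤ |(k i : ℝ) - k j|) → ∀ s ≤ S',
    volume {t ∈ Set.Icc T (2 * T) | (hitA δ L (NZ t + 1 + (L - s)) k : ℝ) < (pG δ - ε) * K} ≤
      ENNReal.ofReal (η * T) := by
  classical
  obtain ⟨δ', K₀, hδ', hδδ, hlg⟩ := hLG δ ε (η / 4) hδ hε (by positivity)
  refine ⟨K₀, fun K hK hK1 κ hκ S' => ?_⟩
  obtain ⟨κ', hκ'⟩ : ∃ κ' : ℝ, κ' = min (κ / 2) (1 / 8) := ⟨_, rfl⟩
  have hκ'0 : 0 < κ' := by rw [hκ']; exact lt_min (by linarith) (by norm_num)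
  have hκ'1 : κ' ≤ κ / 2 := by rw [hκ']; exact min_le_left _ _
  have hκ'2 : κ' ≤ 1 / 8 := by rw [hκ']; exact min_le_right _ _
  obtain ⟨ε₀, hε₀⟩ : ∃ ε₀ : ℝ, ε₀ = (δ - δ') / 80 := ⟨_, rfl⟩
  have hε₀0 : 0 < ε₀ := by rw [hε₀]; linarith
  obtain ⟨A₁, Q, hA₁, hQ, hnear⟩ := near_all2 (η := η / 2) (by positivity) hε₀0 (K + K) (by omega)
  obtain ⟨R₁, hR₁, hjoint⟩ := joint_x hTW 1 le_rfl hκ'0 (show 1 ≤ K + K by omega)
    (ι := Unit) (fun _ => FL K δ' ((pG δ - ε) * K)) (fun _ => hFC _ _ _) (η := η / 4) (ρ := η / 4)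
    (by positivity) (fun _ => hlg K hK)
  obtain ⟨L₁, hnum⟩ := num_A hδ' hδδ hQ
  refine ⟨⌈A₁⌉₊ + ⌈R₁⌉₊ + 4 * S' + 4 + L₁, fun L T hL hT hlog k hk1 hk2 s hs => ?_⟩
  obtain ⟨r, hr⟩ : ∃ r : ℝ, r = Real.sqrt (Real.log ((2 * L : ℕ) : ℝ)) := ⟨_, rfl⟩
  obtain ⟨n1, n2, n3, n4, n5, n6, n7⟩ := hnum L T r (by omega) hT hlog hr
  have haA : A₁ ≤ ((2 * L : ℕ) : ℝ) :=
    (Nat.le_ceil A₁).trans (by exact_mod_cast (by omega : ⌈A₁⌉₊ ≤ 2 * L))
  have haR : R₁ ≤ ((2 * L : ℕ) : ℝ) :=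
    (Nat.le_ceil R₁).trans (by exact_mod_cast (by omega : ⌈R₁⌉₊ ≤ 2 * L))
  set x : Fin (K + K + 1) → ℕ := Fin.cons (L / 2) (fun i => L - s + k i) with hx
  have hx0 : x 0 = L / 2 := rfl
  have hxs : ∀ i : Fin (K + K), x i.succ = L - s + k i := fun i => by rw [hx, Fin.cons_succ]
  have hPX := PX_mk hκ'1 hκ'2 hs (show 4 * S' + 4 ≤ L by omega) k hk1 hk2 x hx0 hxs
  have hxa : ∀ i, x i ≤ 2 * L := by
    intro i
    refine Fin.cases ?_ (fun j => ?_) i
    · rw [hx0]; omega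
    · rw [hxs]
      have := hk1 j
      omega
  set P : Finset ℕ := insert (L - s) (Finset.univ.image x) with hP
  have hPm : ∀ i, x i ∈ P := fun i =>
    Finset.mem_insert_of_mem (Finset.mem_image.2 ⟨i, Finset.mem_univ i, rfl⟩)
  have hP0 : L - s ∈ P := Finset.mem_insert_self _ _
  have hPc : P.card ≤ 4 * (K + K) := by
    have h1 : P.card ≤ (Finset.univ.image x).card + 1 := Finset.card_insert_le _ _
    have h2 : (Finset.univ.image x).card ≤ (Finset.univ : Finset (Fin (K + K + 1))).card :=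
      Finset.card_image_le
    rw [Finset.card_univ, Fintype.card_fin] at h2
    omega
  have hPa : ∀ y ∈ P, y ≤ 2 * L := by
    intro y hy
    rcases Finset.mem_insert.1 hy with rfl | hy
    · omega
    · obtain ⟨i, -, rfl⟩ := Finset.mem_image.1 hy
      exact hxa i
  have hv1 := hnear (2 * L) T haA hT hlog P hPc hPa
  have hv2 := hjoint ((2 * L : ℕ) : ℝ) T haR hT (by linarith) (fun i => (x i : ℝ)) hPX ()
  refine (measure_mono ?_).trans ((measure_union_le _ _).trans ((add_le_add hv1 hv2).trans ?_))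
  · rintro t ⟨ht, hlt⟩
    by_cases hG : nearQ P T (ε₀ * Real.sqrt (Real.log ((2 * L : ℕ) : ℝ)))
        (Q * Real.sqrt (Real.log ((2 * L : ℕ) : ℝ))) t
    · right
      refine ⟨ht, ?_⟩
      show zv ((2 * L : ℕ) : ℝ) T (fun i => (x i : ℝ)) t ∈ FL K δ' ((pG δ - ε) * K)
      refine le_trans ?_ hlt.le
      unfold hitA
      rw [← hr] at hG
      have hsub : ({i : Fin K | |zv ((2 * L : ℕ) : ℝ) T (fun i => (x i : ℝ)) t (Fin.castAdd K i) -
          (∑ l : Fin K, zv ((2 * L : ℕ) : ℝ) T (fun i => (x i : ℝ)) t (Fin.natAdd K l)) / K| < δ'} :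
          Set (Fin K)) ⊆
          {i | |uo (NZ t + 1 + (L - s)) (k (Fin.castAdd K i)) - cen (NZ t + 1 + (L - s)) k| ≤
            δ * Real.sqrt (2 * Real.log L) / Real.log (ord (NZ t + 1 + (L - s) + k (Fin.castAdd K i)))} := by
        intro i hi
        exact det_A hK1 hδ' hδδ hε₀ hQ hr n1 n2 rfl rfl n3 ht n4 n5 (by rw [hε₀]; exact n6) n7 k hk1 x hxs
          P hPm hP0 hG i hi
      exact_mod_cast Set.ncard_le_ncard hsub (Set.toFinite _)
    · left
      exact ⟨ht, hG⟩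
  · have hT0 : 0 < T := by linarith
    rw [← ENNReal.ofReal_add (by positivity) (by positivity)]
    apply ENNReal.ofReal_le_ofReal
    linarith

/-- **the lower bound for given places** -/
theorem ord_A (hTW : S_TW) (hFC : S_FC) (hLG : S_LG) {δ ε η : ℝ} (hδ : 0 < δ) (hε : 0 < ε)
    (hη : 0 < η) : ∃ K₀ : ℕ, ∀ K : ℕ, K₀ ≤ K → 1 ≤ K → ∀ κ : ℝ, 0 < κ → ∃ L₀ : ℕ,
    ∀ L N : ℕ, L₀ ≤ L → 8 * (L * Real.log L) ≤ Real.log N →
    ∀ k : Fin (K + K) → ℕ, (∀ i, k i ≤ L) → (∀ i j, i ≠ j → κ * L ≤ |(k i : ℝ) - k j|) →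
    cn N {n | (hitA δ L n k : ℝ) < (pG δ - ε) * K} ≤ η * N := by
  classical
  obtain ⟨e, he⟩ : ∃ e : ℝ, e = min (η / 4) 1 := ⟨_, rfl⟩
  have he0 : 0 < e := by rw [he]; exact lt_min (by positivity) one_pos
  have he1 : e ≤ 1 := by rw [he]; exact min_le_right _ _
  have heη : e ≤ η / 4 := by rw [he]; exact min_le_left _ _
  obtain ⟨N₁, hN₁, hasm⟩ := Pool.Agent.R320.CL.asm e he0 he1
  obtain ⟨S', T1, hT1, hpalm⟩ := palm_unif he0 he1
  obtain ⟨K₀, hrun⟩ := run_A hTW hFC hLG hδ hε (show 0 < e / (8 * (S' + 1)) by positivity)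
  refine ⟨K₀, fun K hK hK1 κ hκ => ?_⟩
  obtain ⟨L₀, hrun⟩ := hrun K hK hK1 κ hκ S'
  refine ⟨L₀ + ⌈T1⌉₊ + S' + N₁ + ⌈4 / η⌉₊ + 3, fun L N hL hLN k hk1 hk2 => ?_⟩
  have hL3 : (3 : ℝ) ≤ L := by exact_mod_cast (by omega : 3 ≤ L)
  have hlL : 1 ≤ Real.log L := by
    rw [Real.le_log_iff_exp_le (by linarith)]
    linarith [Real.exp_one_lt_d9]
  have hLη : 4 / η ≤ L := (Nat.le_ceil _).trans (by exact_mod_cast (by omega : ⌈4 / η⌉₊ ≤ L))
  rw [div_le_iff₀ hη] at hLη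
  have hlN : 0 < Real.log N := by nlinarith
  have hN0 : (0 : ℝ) < N := by
    rcases Nat.eq_zero_or_pos N with h | h
    · rw [h] at hlN
      simp at hlN
    · exact_mod_cast h
  have hNL : (L : ℝ) ^ 2 ≤ N := by
    rw [← Real.log_le_log_iff (by positivity) hN0, Real.log_pow]
    push_cast
    nlinarith
  have hNN : N₁ ≤ N := by
    have h1 : (L : ℝ) ≤ N := by nlinarith
    have h2 : L ≤ N := by exact_mod_cast h1
    omega
  set E : ℕ → Prop := fun n => (hitA δ L n k : ℝ) < (pG δ - ε) * K with hE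
  have g1 := hasm N hNN (fun n => E (n + L)) e he0.le (by linarith)
    (fun T hT hlog => by
      rw [mul_comm (T * Real.log T / (2 * Real.pi)) e]
      have h1 : Real.log ((2 * L : ℕ) : ℝ) ≤ 2 * Real.log L := by
        push_cast
        rw [Real.log_mul (by norm_num) (by linarith)]
        have h2 : Real.log 2 ≤ Real.log L := Real.log_le_log (by norm_num) (by linarith)
        linarith
      have h3 : ((2 * L : ℕ) : ℝ) * Real.log ((2 * L : ℕ) : ℝ) ≤ ((2 * L : ℕ) : ℝ) * (2 * Real.log L) :=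
        mul_le_mul_of_nonneg_left h1 (Nat.cast_nonneg _)
      have hlogT : ((2 * L : ℕ) : ℝ) * Real.log ((2 * L : ℕ) : ℝ) ≤ Real.log T := by
        refine h3.trans ?_
        push_cast
        linarith
      have h2L : (((2 * L : ℕ) : ℕ) : ℝ) = 2 * L := by push_cast; ring
      have hl1 : 1 ≤ Real.log ((2 * L : ℕ) : ℝ) := by
        rw [Real.le_log_iff_exp_le (by rw [h2L]; linarith), h2L]
        linarith [Real.exp_one_lt_d9]
      have hLL : (L : ℝ) ≤ Real.log T := by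
        rw [h2L] at hlogT hl1
        nlinarith
      have hT0 : 0 < T := by linarith
      have hLT : (L : ℝ) ≤ T := by
        have := Real.log_le_sub_one_of_pos hT0
        linarith
      have hTT1 : T1 ≤ T := by
        have h1 : T1 ≤ L := (Nat.le_ceil T1).trans (by exact_mod_cast (by omega : ⌈T1⌉₊ ≤ L))
        linarith
      refine hpalm T hTT1 (fun s => {t | (hitA δ L (NZ t + 1 + (L - s)) k : ℝ) < (pG δ - ε) * K})
        (fun n => E (n + L)) ?_ ?_
      · intro s hs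
        refine le_trans (measure_mono ?_) (hrun L T (by omega) hT hlogT k hk1 hk2 s hs)
        rintro t ⟨h8, h9⟩
        exact ⟨h9, h8⟩
      · intro n hn hnT s hs t _ _ hts
        have e1 : NZ t + 1 + (L - s) = n + L := by omega
        show (hitA δ L (NZ t + 1 + (L - s)) k : ℝ) < (pG δ - ε) * K
        rw [e1]
        exact hn)
  rw [cn_eq]
  have h1 : (Finset.Icc 1 N).filter E ⊆ Finset.Icc 1 L ∪
      ((Finset.Icc 1 N).filter (fun n => E (n + L))).image (fun n => n + L) := by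
    intro n hn
    rw [Finset.mem_filter, Finset.mem_Icc] at hn
    rw [Finset.mem_union, Finset.mem_Icc, Finset.mem_image]
    rcases Nat.lt_or_ge L n with h | h
    · right
      refine ⟨n - L, ?_, by omega⟩
      rw [Finset.mem_filter, Finset.mem_Icc]
      refine ⟨⟨by omega, by omega⟩, ?_⟩
      have : n - L + L = n := by omega
      rw [this]
      exact hn.2
    · left
      exact ⟨hn.1.1, h⟩
  have h2 := (Finset.card_le_card h1).trans (Finset.card_union_le _ _)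
  rw [Nat.card_Icc, Nat.add_sub_cancel] at h2
  have h3 : (((Finset.Icc 1 N).filter (fun n => E (n + L))).image (fun n => n + L)).card ≤
      ((Finset.Icc 1 N).filter (fun n => E (n + L))).card := Finset.card_image_le
  have h4 : ((((Finset.Icc 1 N).filter E).card : ℕ) : ℝ) ≤
      L + ((((Finset.Icc 1 N).filter (fun n => E (n + L))).card : ℕ) : ℝ) := by
    exact_mod_cast h2.trans (Nat.add_le_add_left h3 _)
  refine h4.trans ?_
  have h5 : (L : ℝ) ≤ η / 4 * N := by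
    have h6 : 4 * (L : ℝ) ≤ L * η * L := by nlinarith
    have h7 : η * (L : ℝ) ^ 2 ≤ η * N := mul_le_mul_of_nonneg_left hNL hη.le
    nlinarith
  have h8 : (e + e) * N ≤ (η / 4 + η / 4) * N := mul_le_mul_of_nonneg_right (by linarith) hN0.le
  have h9 : 0 ≤ η * N := by positivity
  linarith

end Pool.Agent.P8H60.BC
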