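import Pool.Agent.P8H60.BC.Stm

/-!
# Statements of the packages of project BC, round 2 (optimality)
-/

set_option autoImplicit false

namespace Pool.Agent.P8H60.BC

open Finset MeasureTheory ProbabilityTheory

/-- package CH2 (Chernoff bound with different probabilities; same proof as `t_CH` in
`Pool/Agent/P8H76/BC/CH.lean`: `∏ (1 + p_i (e^λ - 1)) ≤ exp ((∑ p_i) (e^λ - 1))` and `∑ p_i ≤ K`). -/
def S_CH2 : Prop := ∀ ε : ℝ, 0 < ε → ∃ c : ℝ, 0 < c ∧ ∀ (K : ℕ) (B : Fin K → Set ℝ),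
  (∀ i, MeasurableSet (B i)) →
  (Measure.pi fun _ : Fin K => gaussianReal 0 1).real
    {z | (∑ i, (gaussianReal 0 1).real (B i)) + ε * K ≤ (({i | z i ∈ B i} : Set (Fin K)).ncard : ℝ)} ≤
    Real.exp (-(c * K))

/-- package AV (Chebyshev: the variance of a sum of independent normal variables; `iIndepFun_pi`,
`IndepFun.variance_sum`, `meas_ge_le_variance_div_sq`). -/
def S_AV : Prop := ∀ (m : ℕ) (S : Finset (Fin m)) (u : ℝ), 0 < u →
  (Measure.pi fun _ : Fin m => gaussianReal 0 1).real {z | u ≤ |∑ i ∈ S, z i|} ≤ S.card / u ^ 2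

/-- few of the first `K` coordinates are near the mean of the last `K` coordinates -/
def FL (K : ℕ) (δ q : ℝ) : Set (Fin (K + K) → ℝ) :=
  {z | (({i : Fin K | |z (Fin.castAdd K i) - (∑ l : Fin K, z (Fin.natAdd K l)) / K| < δ} :
    Set (Fin K)).ncard : ℝ) ≤ q}

/-- package FC: the set is closed (finite union over the subsets `J` of `Fin K` with at most `q` elements
of the sets where all `i` outside of `J` satisfy `δ ≤ |…|`; see `cnt_closed` in
`Pool/Agent/P8H60/BC/Gau.lean`). -/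
def S_FC : Prop := ∀ (K : ℕ) (δ q : ℝ), IsClosed (FL K δ q)

/-- package LG: for large `K` the set `FL` has small Gaussian measure. If the mean of the last `K`
coordinates is less than `u` in absolute value (`S_AV`, exception `1 / (K u ^ 2)`), then all `i` with
`|z_i| < δ' - u` are counted; `S_CH2` with `B_i = {|z| ≥ δ' - u}` for the first `K` coordinates and `∅` for
the others; `1 - (gaussianReal 0 1).real {|z| ≥ δ' - u} ≥ pG (δ' - u) ≥ pG δ - ε / 2` if `δ' - u` is near
`δ` (`Pool.Agent.P8H7.BC.G_lip`, `pG_eq`). -/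
def S_LG : Prop := ∀ δ ε η : ℝ, 0 < δ → 0 < ε → 0 < η → ∃ (δ' : ℝ) (K₀ : ℕ), 0 < δ' ∧ δ' < δ ∧
  ∀ K : ℕ, K₀ ≤ K →
  (Measure.pi fun _ : Fin (K + K) => gaussianReal 0 1).real (FL K δ' ((pG δ - ε) * K)) ≤ η

/-- the type of the assembly package LG: `t_LG : S_CH2 → S_AV → S_LG` -/
def S_LGA : Prop := S_CH2 → S_AV → S_LG

end Pool.Agent.P8H60.BC
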