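import Pool.Agent.P8H60.BC.Run
import Pool.Agent.P8H60.BC.Stm2

/-! # The lower bound for the run following a height -/

set_option autoImplicit false

namespace Pool.Agent.P8H60.BC

open Filter Topology MeasureTheory
open Pool.Agent.R846.VS (Dd)
open Pool.Agent.P8H60.LM (S_TW nearQ near_all2)
open SG (NZ ord)

/-- the positions -/
lemma PX_mk {κ κ' : ℝ} (hκ'1 : κ' ≤ κ / 2) (hκ'2 : κ' ≤ 1 / 8) {J L s S' : ℕ} (hs : s ≤ S')
    (hL : 4 * S' + 4 ≤ L) (k : Fin J → ℕ) (hk1 : ∀ i, k i ≤ L)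
    (hk2 : ∀ i j, i ≠ j → κ * L ≤ |(k i : ℝ) - k j|) (x : Fin (J + 1) → ℕ) (hx0 : x 0 = L / 2)
    (hxs : ∀ i : Fin J, x i.succ = L - s + k i) : PX κ' ((2 * L : ℕ) : ℝ) (fun i => (x i : ℝ)) := by
  have hL0 : (0 : ℝ) ≤ L := Nat.cast_nonneg _
  have har : ((2 * L : ℕ) : ℝ) = 2 * L := by push_cast; ring
  have hκa : κ' * ((2 * L : ℕ) : ℝ) ≤ L / 4 := by
    rw [har]
    nlinarith
  have hL4n : (L : ℝ) / 4 ≤ (L / 2 : ℕ) := by
    have h1 : L ≤ 4 * (L / 2) := by omega
    have h2 : (L : ℝ) ≤ 4 * ((L / 2 : ℕ) : ℝ) := by exact_mod_cast h1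
    linarith
  have hsep0 : ∀ i : Fin J, (L : ℝ) / 4 ≤ (x i.succ : ℝ) - x 0 := by
    intro i
    rw [hxs, hx0]
    have h1 : L + 4 * (L / 2) ≤ 4 * (L - s + k i) := by omega
    have h2 : (L : ℝ) + 4 * ((L / 2 : ℕ) : ℝ) ≤ 4 * ((L - s + k i : ℕ) : ℝ) := by exact_mod_cast h1
    linarith
  have hxa : ∀ i, x i ≤ 2 * L := by
    intro i
    refine Fin.cases ?_ (fun j => ?_) i
    · rw [hx0]; omega
    · rw [hxs]
      have := hk1 j
      omega
  refine ⟨fun i => ?_, fun i => by exact_mod_cast hxa i, fun i j hij => ?_⟩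
  · refine Fin.cases ?_ (fun j => ?_) i
    · show κ' * ((2 * L : ℕ) : ℝ) ≤ ((x 0 : ℕ) : ℝ)
      rw [hx0]; linarith
    · have := hsep0 j
      have h0 : (0 : ℝ) ≤ x 0 := Nat.cast_nonneg _
      show κ' * ((2 * L : ℕ) : ℝ) ≤ ((x j.succ : ℕ) : ℝ)
      linarith
  · show κ' * ((2 * L : ℕ) : ℝ) ≤ |(x i : ℝ) - x j|
    revert hij
    refine Fin.cases ?_ (fun i' => ?_) i
    · refine Fin.cases (fun h => absurd rfl h) (fun j' _ => ?_) j
      rw [abs_sub_comm]
      refine le_trans ?_ (le_abs_self _)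
      linarith [hsep0 j']
    · refine Fin.cases (fun _ => ?_) (fun j' h => ?_) j
      · refine le_trans ?_ (le_abs_self _)
        linarith [hsep0 i']
      · have h1 : i' ≠ j' := fun h' => h (by rw [h'])
        have h2 := hk2 i' j' h1
        rw [hxs, hxs]
        have h3 : ((L - s + k i' : ℕ) : ℝ) - ((L - s + k j' : ℕ) : ℝ) = (k i' : ℝ) - k j' := by
          push_cast
          ring
        rw [h3]
        refine le_trans ?_ h2
        rw [har]
        nlinarith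

/-- the normalised ordinate -/
noncomputable def uo (m : ℕ) (k : ℕ) : ℝ := ord (m + k) - 2 * Real.pi * k / Real.log (ord m)

/-- the centre -/
noncomputable def cen {K : ℕ} (m : ℕ) (k : Fin (K + K) → ℕ) : ℝ :=
  (∑ l : Fin K, uo m (k (Fin.natAdd K l))) / K

/-- the number of the places among the first `K` which are near the arithmetic progression -/
noncomputable def hitA {K : ℕ} (δ : ℝ) (L m : ℕ) (k : Fin (K + K) → ℕ) : ℕ :=
  ({i | |uo m (k (Fin.castAdd K i)) - cen m k| ≤ δ * Real.sqrt (2 * Real.log L) /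
    Real.log (ord (m + k (Fin.castAdd K i)))} : Set (Fin K)).ncard

/-- the deterministic part -/
lemma det_A {K : ℕ} (hK : 1 ≤ K) {δ δ' ε₀ Q T t r w ℓ : ℝ} {L s : ℕ} (hδ' : 0 < δ') (hδδ : δ' < δ)
    (hε₀ : ε₀ = (δ - δ') / 80) (hQ : 0 < Q) (hr : r = Real.sqrt (Real.log ((2 * L : ℕ) : ℝ)))
    (hr1 : 1 ≤ r) (hL : 1 ≤ L)
    (hw : w = Real.sqrt 2 * (Real.pi / r)) (hℓ : ℓ = Real.log T / (2 * Real.pi))
    (hT : 10 ≤ Real.log T) (hTt : t ∈ Set.Icc T (2 * T))
    (hc1 : w ≤ (δ - δ') / 8)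
    (hc2 : r * (1 + 2 / Real.log T) * ((δ + δ') / 2) ≤ δ * Real.sqrt (Real.log L))
    (hc3 : 2 * L + 1 + Q * r + 2 * (ε₀ * r) ≤ ℓ) (hc4 : 4 * L ≤ Real.log T)
    (k : Fin (K + K) → ℕ) (hk : ∀ i, k i ≤ L)
    (x : Fin (K + K + 1) → ℕ) (hxs : ∀ i : Fin (K + K), x i.succ = L - s + k i)
    (P : Finset ℕ) (hP : ∀ i, x i ∈ P) (hP0 : L - s ∈ P)
    (hn : nearQ P T (ε₀ * r) (Q * r) t) (i : Fin K)
    (hi : |zv ((2 * L : ℕ) : ℝ) T (fun i => (x i : ℝ)) t (Fin.castAdd K i) -
      (∑ l : Fin K, zv ((2 * L : ℕ) : ℝ) T (fun i => (x i : ℝ)) t (Fin.natAdd K l)) / K| < δ') :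
    |uo (NZ t + 1 + (L - s)) (k (Fin.castAdd K i)) - cen (NZ t + 1 + (L - s)) k| ≤
      δ * Real.sqrt (2 * Real.log L) / Real.log (ord (NZ t + 1 + (L - s) + k (Fin.castAdd K i))) := by
  have hpi := Real.pi_pos
  have hpi4 := Real.pi_lt_d2
  have hK0 : (0 : ℝ) < K := by exact_mod_cast hK
  have hT0 : 0 < T := by
    by_contra h
    push Not at h
    have h1 : (2 * T) ≤ T := by linarith
    rcases h.lt_or_eq with h2 | h2
    · exact absurd (hTt.1.trans hTt.2) (by linarith)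
    · rw [h2, Real.log_zero] at hT
      linarith
  have hT11 : 11 ≤ T := by
    have := Real.log_le_sub_one_of_pos hT0
    linarith
  have hℓ0 : 0 < ℓ := by rw [hℓ]; positivity
  have hε₀0 : 0 < ε₀ := by rw [hε₀]; linarith
  have hs2 : 0 < Real.sqrt 2 := Real.sqrt_pos.2 (by norm_num)
  have hs22 : Real.sqrt 2 * Real.sqrt 2 = 2 := Real.mul_self_sqrt (by norm_num)
  have hw0 : 0 < w := by rw [hw]; positivity
  set m := NZ t + 1 + (L - s) with hm
  -- the ordinates are near `t`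
  have hord : ∀ y ∈ P, y ≤ 2 * L → |ord (NZ t + 1 + y) - t| ≤ 1 := by
    intro y hy hyL
    obtain ⟨h2, h3⟩ := hn y hy
    have h4 : (y : ℝ) ≤ 2 * L := by exact_mod_cast hyL
    have h5 : (0 : ℝ) ≤ y := Nat.cast_nonneg _
    have h6 : |ord (NZ t + 1 + y) - t| * ℓ ≤ ℓ := by
      rw [← abs_of_pos hℓ0, ← abs_mul, abs_of_pos hℓ0]
      rw [← hℓ] at h2
      rw [abs_le] at h2 h3 ⊢
      constructor <;> linarith
    by_contra hcon
    push Not at hcon
    have : 1 * ℓ < |ord (NZ t + 1 + y) - t| * ℓ := mul_lt_mul_of_pos_right hcon hℓ0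
    linarith
  have hlogb : ∀ z : ℝ, |z - t| ≤ 1 → |Real.log z - Real.log T| ≤ 2 := by
    intro z hz
    rw [abs_le] at hz
    have h1 : T - 1 ≤ z := by linarith [hTt.1]
    have h2 : z ≤ 2 * T + 1 := by linarith [hTt.2]
    have hz0 : 0 < z := by linarith
    have h3 : Real.log z ≤ Real.log T + 2 := by
      have h4 : Real.log z ≤ Real.log (T * Real.exp 2) := by
        apply Real.log_le_log hz0
        have h5 : (3 : ℝ) ≤ Real.exp 2 := by
          have := Real.add_one_le_exp (2 : ℝ)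
          linarith
        nlinarith
      rwa [Real.log_mul (by positivity) (by positivity), Real.log_exp] at h4
    have h4 : Real.log T ≤ Real.log z + 2 := by
      have h5 : Real.log T ≤ Real.log (z * Real.exp 2) := by
        apply Real.log_le_log hT0
        have h5 : (3 : ℝ) ≤ Real.exp 2 := by
          have := Real.add_one_le_exp (2 : ℝ)
          linarith
        nlinarith
      rwa [Real.log_mul (by positivity) (by positivity), Real.log_exp] at h5
    rw [abs_le]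
    constructor <;> linarith
  have hordx : ∀ j : Fin (K + K), ord (m + k j) = ord (NZ t + 1 + x j.succ) := by
    intro j
    rw [hxs, hm]
    congr 1
    omega
  have hlogx : ∀ j : Fin (K + K), |Real.log (ord (m + k j)) - Real.log T| ≤ 2 := by
    intro j
    apply hlogb
    rw [hordx]
    refine hord _ (hP _) ?_
    rw [hxs]
    have := hk j
    omega
  have hlogm : |Real.log (ord m) - Real.log T| ≤ 2 := hlogb _ (hord _ hP0 (by omega))
  set lam := Real.log (ord m) with hlam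
  have hlam8 : 8 ≤ lam := by
    rw [abs_le] at hlogm
    linarith
  -- the fluctuations
  have hZ : ∀ j : Fin (K + K), |Zf ((2 * L : ℕ) : ℝ) T t (x j.succ) -
      w * ((ord (m + k j) - t) * ℓ - (x j.succ + 1))| ≤ w * (2 * (ε₀ * r)) := by
    intro j
    have h1 := (hn _ (hP j.succ)).1
    rw [← hℓ] at h1
    have e1 : Zf ((2 * L : ℕ) : ℝ) T t (x j.succ) - w * ((ord (m + k j) - t) * ℓ - (x j.succ + 1)) =
        -(w * ((ord (NZ t + 1 + x j.succ) - t) * ℓ - (x j.succ + 1) + Dd T t (x j.succ))) := by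
      rw [hordx]
      unfold Zf
      rw [← hr, hw]
      ring
    rw [e1, abs_neg, abs_mul, abs_of_pos hw0]
    exact mul_le_mul_of_nonneg_left h1 hw0.le
  -- the normalised ordinates
  have hU : ∀ j : Fin (K + K), |w * (ℓ * uo m (k j)) - (w * ((ord (m + k j) - t) * ℓ - (x j.succ + 1)) +
      w * (t * ℓ + (L - s : ℕ) + 1))| ≤ w := by
    intro j
    have e1 : w * (ℓ * uo m (k j)) - (w * ((ord (m + k j) - t) * ℓ - (x j.succ + 1)) +
        w * (t * ℓ + (L - s : ℕ) + 1)) = w * ((k j : ℝ) * ((lam - Real.log T) / lam)) := by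
      unfold uo
      rw [hxs, ← hlam]
      push_cast
      rw [hℓ]
      field_simp
      ring
    rw [e1, abs_mul, abs_of_pos hw0, abs_mul, abs_div, abs_of_pos (by linarith : 0 < lam),
      Nat.abs_cast]
    have h1 : (k j : ℝ) ≤ L := by exact_mod_cast hk j
    have h2 : |lam - Real.log T| / lam ≤ 2 / lam := div_le_div_of_nonneg_right hlogm (by linarith)
    have h3 : Real.log T ≤ 2 * lam := by
      rw [abs_le] at hlogm
      linarith
    have h4 : (k j : ℝ) * (|lam - Real.log T| / lam) ≤ L * (2 / lam) :=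
      mul_le_mul h1 h2 (by positivity) (Nat.cast_nonneg _)
    have h5 : (L : ℝ) * (2 / lam) ≤ 1 := by
      rw [mul_div_assoc', div_le_one (by linarith)]
      linarith
    calc w * ((k j : ℝ) * (|lam - Real.log T| / lam)) ≤ w * 1 :=
          mul_le_mul_of_nonneg_left (h4.trans h5) hw0.le
      _ = w := mul_one w
  set cs := w * (t * ℓ + (L - s : ℕ) + 1) with hcs
  set e₁ := w * (2 * (ε₀ * r)) + w with he₁
  have hAB : ∀ j : Fin (K + K), |(w * (ℓ * uo m (k j)) - cs) - Zf ((2 * L : ℕ) : ℝ) T t (x j.succ)| ≤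
      e₁ := by
    intro j
    have h1 := hZ j
    have h2 := hU j
    rw [abs_le] at h1 h2 ⊢
    rw [he₁]
    constructor <;> linarith
  -- the means
  have hmean : |(∑ l : Fin K, (w * (ℓ * uo m (k (Fin.natAdd K l))) - cs)) / K -
      (∑ l : Fin K, Zf ((2 * L : ℕ) : ℝ) T t (x (Fin.natAdd K l).succ)) / K| ≤ e₁ := by
    rw [← sub_div, ← Finset.sum_sub_distrib, abs_div, Nat.abs_cast, div_le_iff₀ hK0]
    refine (Finset.abs_sum_le_sum_abs _ _).trans ?_
    calc _ ≤ ∑ _l : Fin K, e₁ := Finset.sum_le_sum fun l _ => hAB _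
      _ = e₁ * K := by
          rw [Finset.sum_const, Finset.card_univ, Fintype.card_fin, nsmul_eq_mul]
          ring
  have em1 : (∑ l : Fin K, (w * (ℓ * uo m (k (Fin.natAdd K l))) - cs)) / K = w * (ℓ * cen m k) - cs := by
    rw [Finset.sum_sub_distrib, Finset.sum_const, Finset.card_univ, Fintype.card_fin, nsmul_eq_mul]
    unfold cen
    rw [← Finset.mul_sum, ← Finset.mul_sum]
    field_simp
  have em2 : zv ((2 * L : ℕ) : ℝ) T (fun i => (x i : ℝ)) t (Fin.castAdd K i) -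
      (∑ l : Fin K, zv ((2 * L : ℕ) : ℝ) T (fun i => (x i : ℝ)) t (Fin.natAdd K l)) / K =
      Zf ((2 * L : ℕ) : ℝ) T t (x (Fin.castAdd K i).succ) -
      (∑ l : Fin K, Zf ((2 * L : ℕ) : ℝ) T t (x (Fin.natAdd K l).succ)) / K := by
    unfold zv
    rw [Finset.sum_sub_distrib, Finset.sum_const, Finset.card_univ, Fintype.card_fin, nsmul_eq_mul]
    field_simp
    ring
  rw [em2] at hi
  rw [em1] at hmean
  have hwr : w * (2 * (ε₀ * r)) ≤ 9 * ε₀ := by
    have h5 : w * (2 * (ε₀ * r)) = 2 * (Real.sqrt 2 * Real.pi) * ε₀ := by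
      rw [hw]
      field_simp
    rw [h5]
    have h6 : Real.sqrt 2 * Real.pi ≤ 9 / 2 := by
      have h7 : Real.sqrt 2 ≤ 1415 / 1000 := by
        rw [Real.sqrt_le_left (by norm_num)]
        norm_num
      calc Real.sqrt 2 * Real.pi ≤ 1415 / 1000 * 3.15 := mul_le_mul h7 (by linarith) hpi.le (by norm_num)
        _ ≤ 9 / 2 := by norm_num
    have h7 : 2 * (Real.sqrt 2 * Real.pi) * ε₀ ≤ 9 * ε₀ := mul_le_mul_of_nonneg_right (by linarith) hε₀0.le
    exact h7
  have hmain : w * ℓ * |uo m (k (Fin.castAdd K i)) - cen m k| ≤ (δ + δ') / 2 := by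
    rw [← abs_of_pos (mul_pos hw0 hℓ0), ← abs_mul]
    have e1 : w * ℓ * (uo m (k (Fin.castAdd K i)) - cen m k) =
        ((w * (ℓ * uo m (k (Fin.castAdd K i))) - cs) - Zf ((2 * L : ℕ) : ℝ) T t (x (Fin.castAdd K i).succ)) -
        ((w * (ℓ * cen m k) - cs) -
          (∑ l : Fin K, Zf ((2 * L : ℕ) : ℝ) T t (x (Fin.natAdd K l).succ)) / K) +
        (Zf ((2 * L : ℕ) : ℝ) T t (x (Fin.castAdd K i).succ) -
          (∑ l : Fin K, Zf ((2 * L : ℕ) : ℝ) T t (x (Fin.natAdd K l).succ)) / K) := by ring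
    rw [e1]
    have h1 := hAB (Fin.castAdd K i)
    have h2 := abs_add_le (((w * (ℓ * uo m (k (Fin.castAdd K i))) - cs) -
      Zf ((2 * L : ℕ) : ℝ) T t (x (Fin.castAdd K i).succ)) -
        ((w * (ℓ * cen m k) - cs) -
          (∑ l : Fin K, Zf ((2 * L : ℕ) : ℝ) T t (x (Fin.natAdd K l).succ)) / K))
        (Zf ((2 * L : ℕ) : ℝ) T t (x (Fin.castAdd K i).succ) -
          (∑ l : Fin K, Zf ((2 * L : ℕ) : ℝ) T t (x (Fin.natAdd K l).succ)) / K)
    have h3 := abs_sub ((w * (ℓ * uo m (k (Fin.castAdd K i))) - cs) -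
      Zf ((2 * L : ℕ) : ℝ) T t (x (Fin.castAdd K i).succ))
        ((w * (ℓ * cen m k) - cs) -
          (∑ l : Fin K, Zf ((2 * L : ℕ) : ℝ) T t (x (Fin.natAdd K l).succ)) / K)
    rw [he₁] at h1 hmean
    linarith
  -- conclusion
  set li := Real.log (ord (m + k (Fin.castAdd K i))) with hli
  have hli1 : |li - Real.log T| ≤ 2 := hlogx _
  rw [abs_le] at hli1
  have hli0 : 0 < li := by linarith
  rw [le_div_iff₀ hli0]
  have h1 : |uo m (k (Fin.castAdd K i)) - cen m k| * li ≤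
      |uo m (k (Fin.castAdd K i)) - cen m k| * (Real.log T + 2) :=
    mul_le_mul_of_nonneg_left (by linarith) (abs_nonneg _)
  refine h1.trans ?_
  have h2 : w * ℓ = Real.log T * (Real.sqrt 2 / (2 * r)) := by
    rw [hw, hℓ]
    field_simp
  have h3 : |uo m (k (Fin.castAdd K i)) - cen m k| * Real.log T ≤ (δ + δ') / 2 * (Real.sqrt 2 * r) := by
    rw [h2] at hmain
    have h4 : |uo m (k (Fin.castAdd K i)) - cen m k| * Real.log T =
        (Real.log T * (Real.sqrt 2 / (2 * r)) * |uo m (k (Fin.castAdd K i)) - cen m k|) *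
          (Real.sqrt 2 * r) := by
      have e2 : Real.log T * (Real.sqrt 2 / (2 * r)) * |uo m (k (Fin.castAdd K i)) - cen m k| *
          (Real.sqrt 2 * r) = Real.log T * |uo m (k (Fin.castAdd K i)) - cen m k| *
          ((Real.sqrt 2 * Real.sqrt 2) / 2) * (r / r) := by
        ring
      rw [e2, hs22, div_self (by linarith : r ≠ 0)]
      ring
    rw [h4]
    exact mul_le_mul_of_nonneg_right hmain (by positivity)
  have h5 : |uo m (k (Fin.castAdd K i)) - cen m k| * (Real.log T + 2) =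
      (|uo m (k (Fin.castAdd K i)) - cen m k| * Real.log T) * (1 + 2 / Real.log T) := by
    field_simp
  rw [h5, Real.sqrt_mul (by norm_num : (0 : ℝ) ≤ 2)]
  calc (|uo m (k (Fin.castAdd K i)) - cen m k| * Real.log T) * (1 + 2 / Real.log T)
      ≤ ((δ + δ') / 2 * (Real.sqrt 2 * r)) * (1 + 2 / Real.log T) :=
        mul_le_mul_of_nonneg_right h3 (by positivity)
    _ = Real.sqrt 2 * (r * (1 + 2 / Real.log T) * ((δ + δ') / 2)) := by ring
    _ ≤ Real.sqrt 2 * (δ * Real.sqrt (Real.log L)) := mul_le_mul_of_nonneg_left hc2 hs2.le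
    _ = _ := by ring

end Pool.Agent.P8H60.BC
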