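import Pool.Agent.P8H60.BC.Avg
import Pool.Agent.P8H7.BC.GL

/-! # All windows at once -/

set_option autoImplicit false

namespace Pool.Agent.P8H60.BC

open Finset
open SG (ord NZ)
open Pool.Agent.R846.UL (cn cn_eq)
open Pool.Agent.P8H60.LM (S_TW)

/-- the one-sided maximal inequality -/
lemma maxiC (B E : ℕ → Prop) [DecidablePred B] [DecidablePred E] (N C : ℕ)
    (hE : ∀ n, 1 ≤ n → n ≤ N → E n → ∃ L ≤ N, L + 1 ≤ C * ((Icc n (n + L)).filter B).card) :
    ((Icc 1 N).filter E).card ≤ C * ((Icc 1 (2 * N)).filter B).card := by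
  have key : ∀ M n₀ : ℕ, 1 ≤ n₀ → N < n₀ + M →
      ((Icc n₀ N).filter E).card ≤ C * ((Icc n₀ (2 * N)).filter B).card := by
    intro M
    induction M using Nat.strong_induction_on with
    | _ M ih =>
      intro n₀ h1 hM
      rcases Nat.lt_or_ge N n₀ with h2 | h2
      · rw [Finset.Icc_eq_empty (by omega)]
        simp
      · by_cases h3 : E n₀
        · obtain ⟨L, hL, h4⟩ := hE n₀ h1 h2 h3
          have h5 := ih (M - (L + 1)) (by omega) (n₀ + (L + 1)) (by omega) (by omega)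
          have h6 : (Icc n₀ N).filter E ⊆ Icc n₀ (n₀ + L) ∪ (Icc (n₀ + (L + 1)) N).filter E := by
            intro x hx
            rw [mem_filter, mem_Icc] at hx
            rw [mem_union, mem_Icc, mem_filter, mem_Icc]
            by_cases h : x ≤ n₀ + L
            · exact Or.inl ⟨hx.1.1, h⟩
            · exact Or.inr ⟨⟨by omega, hx.1.2⟩, hx.2⟩
          have h7 := (card_le_card h6).trans (card_union_le _ _)
          rw [Nat.card_Icc] at h7
          have h8 : ((Icc n₀ (n₀ + L)).filter B).card + ((Icc (n₀ + (L + 1)) (2 * N)).filter B).card ≤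
              ((Icc n₀ (2 * N)).filter B).card := by
            rw [← card_union_of_disjoint]
            · apply card_le_card
              intro x hx
              rw [mem_union, mem_filter, mem_filter, mem_Icc, mem_Icc] at hx
              rw [mem_filter, mem_Icc]
              rcases hx with ⟨⟨a1, a2⟩, a3⟩ | ⟨⟨a1, a2⟩, a3⟩
              · exact ⟨⟨a1, by omega⟩, a3⟩
              · exact ⟨⟨by omega, a2⟩, a3⟩
            · rw [Finset.disjoint_left]
              intro x hx1 hx2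
              rw [mem_filter, mem_Icc] at hx1 hx2
              omega
          have h9 := Nat.mul_le_mul_left C h8
          rw [Nat.mul_add] at h9
          omega
        · have h5 := ih (M - 1) (by omega) (n₀ + 1) (by omega) (by omega)
          have h6 : (Icc n₀ N).filter E ⊆ (Icc (n₀ + 1) N).filter E := by
            intro x hx
            rw [mem_filter, mem_Icc] at hx
            rw [mem_filter, mem_Icc]
            refine ⟨⟨?_, hx.1.2⟩, hx.2⟩
            rcases Nat.lt_or_ge n₀ x with h | h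
            · omega
            · exfalso
              apply h3
              have : x = n₀ := by omega
              rw [← this]
              exact hx.2
          have h7 : ((Icc (n₀ + 1) (2 * N)).filter B).card ≤ ((Icc n₀ (2 * N)).filter B).card :=
            card_le_card (filter_subset_filter _ (Icc_subset_Icc (by omega) le_rfl))
          have h8 := card_le_card h6
          have h9 := Nat.mul_le_mul_left C h7
          omega
  exact key N 1 le_rfl (by omega)

lemma iter_shift {F : Set (ℕ → ℝ)} (hF : ∀ f ∈ F, (fun j => f (j + 1)) ∈ F) (k : ℕ) :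
    ∀ f ∈ F, (fun j => f (k + j)) ∈ F := by
  induction k with
  | zero =>
    intro f hf
    simpa using hf
  | succ k ih =>
    intro f hf
    have h := ih _ (hF f hf)
    have e1 : (fun j => f (k + 1 + j)) = fun j => f (k + j + 1) := by
      funext j
      congr 1
      omega
    rw [e1]
    exact h

open Classical in
/-- sliding windows -/
lemma slide {L₁ L' : ℕ} (hL : 2 * L₁ ≤ L') (H : ℕ → Prop) (Bd : ℕ → Prop) {q : ℝ} (hq : 0 ≤ q)
    (h : ∀ k, k + L₁ ≤ L' → ¬ Bd k →
      (((range (L₁ + 1)).filter (fun j => H (k + j))).card : ℝ) ≤ q * L₁) :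
    (((range (L' + 1)).filter H).card : ℝ) ≤ 2 * L₁ + q * (L' + 1) +
      (((range (L' + 1)).filter Bd).card : ℝ) := by
  have h1 : ∀ k ∈ range (L' + 1 - L₁), (((range (L₁ + 1)).filter (fun j => H (k + j))).card : ℝ) ≤
      q * (L₁ + 1) + if Bd k then ((L₁ : ℝ) + 1) else 0 := by
    intro k hk
    rw [mem_range] at hk
    split_ifs with hb
    · have h2 : ((range (L₁ + 1)).filter (fun j => H (k + j))).card ≤ L₁ + 1 := by
        refine (card_filter_le _ _).trans ?_
        rw [card_range]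
      have h3 : (((range (L₁ + 1)).filter (fun j => H (k + j))).card : ℝ) ≤ L₁ + 1 := by exact_mod_cast h2
      have h4 : 0 ≤ q * ((L₁ : ℝ) + 1) := by positivity
      linarith
    · rw [add_zero]
      refine (h k (by omega) hb).trans ?_
      have : (L₁ : ℝ) ≤ L₁ + 1 := by linarith
      exact mul_le_mul_of_nonneg_left this hq
  have h2 := sum_le_sum h1
  rw [sum_add_distrib, sum_const, card_range, nsmul_eq_mul, ← sum_filter, sum_const, nsmul_eq_mul] at h2
  -- the left side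
  have h3 : ((L₁ : ℝ) + 1) * (((Ico L₁ (L' + 1 - L₁)).filter H).card : ℝ) ≤
      ∑ k ∈ range (L' + 1 - L₁), (((range (L₁ + 1)).filter (fun j => H (k + j))).card : ℝ) := by
    have e1 : ∀ k, (((range (L₁ + 1)).filter (fun j => H (k + j))).card : ℝ) =
        ∑ i ∈ range (L₁ + 1), if H (k + i) then (1 : ℝ) else 0 := by
      intro k
      rw [card_filter]
      push_cast
      rfl
    simp only [e1]
    rw [sum_comm]
    have e2 : ∀ i ∈ range (L₁ + 1), (((Ico L₁ (L' + 1 - L₁)).filter H).card : ℝ) ≤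
        ∑ k ∈ range (L' + 1 - L₁), if H (k + i) then (1 : ℝ) else 0 := by
      intro i hi
      rw [mem_range] at hi
      have e3 : (∑ k ∈ range (L' + 1 - L₁), if H (k + i) then (1 : ℝ) else 0) =
          (((range (L' + 1 - L₁)).filter (fun k => H (k + i))).card : ℝ) := by
        rw [card_filter]
        push_cast
        rfl
      rw [e3]
      have e4 : ((Ico L₁ (L' + 1 - L₁)).filter H).card ≤
          ((range (L' + 1 - L₁)).filter (fun k => H (k + i))).card := by
        refine card_le_card_of_injOn (fun j => j - i) (fun j hj => ?_) (fun j hj j' hj' hjj => ?_)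
        · rw [mem_coe, mem_filter, mem_Ico] at hj
          rw [mem_coe, mem_filter, mem_range]
          refine ⟨?_, ?_⟩
          · show j - i < L' + 1 - L₁
            omega
          · show H (j - i + i)
            have : j - i + i = j := by omega
            rw [this]
            exact hj.2
        · rw [mem_coe, mem_filter, mem_Ico] at hj hj'
          have : j - i = j' - i := hjj
          omega
      exact_mod_cast e4
    calc ((L₁ : ℝ) + 1) * (((Ico L₁ (L' + 1 - L₁)).filter H).card : ℝ) =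
          ∑ i ∈ range (L₁ + 1), (((Ico L₁ (L' + 1 - L₁)).filter H).card : ℝ) := by
            rw [sum_const, card_range, nsmul_eq_mul]
            push_cast
            ring
      _ ≤ _ := sum_le_sum e2
  have h4 : ((range (L' + 1)).filter H).card ≤ 2 * L₁ + ((Ico L₁ (L' + 1 - L₁)).filter H).card := by
    have h5 : (range (L' + 1)).filter H ⊆ (range L₁ ∪ Ico (L' + 1 - L₁) (L' + 1)) ∪
        (Ico L₁ (L' + 1 - L₁)).filter H := by
      intro j hj
      rw [mem_filter, mem_range] at hj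
      rw [mem_union, mem_union, mem_filter, mem_range, mem_Ico, mem_Ico]
      by_cases h6 : j < L₁
      · exact Or.inl (Or.inl h6)
      · by_cases h7 : j < L' + 1 - L₁
        · exact Or.inr ⟨⟨by omega, h7⟩, hj.2⟩
        · exact Or.inl (Or.inr ⟨by omega, hj.1⟩)
    have h6 := (card_le_card h5).trans ((card_union_le _ _).trans
      (Nat.add_le_add_right (card_union_le _ _) _))
    rw [card_range, Nat.card_Ico] at h6
    omega
  have h5 : (((range (L' + 1)).filter H).card : ℝ) ≤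
      2 * L₁ + (((Ico L₁ (L' + 1 - L₁)).filter H).card : ℝ) := by exact_mod_cast h4
  have h6 : ((range (L' + 1 - L₁)).filter Bd).card ≤ ((range (L' + 1)).filter Bd).card :=
    card_le_card (filter_subset_filter _ (range_mono (by omega)))
  have h7 : (((range (L' + 1 - L₁)).filter Bd).card : ℝ) ≤ (((range (L' + 1)).filter Bd).card : ℝ) := by
    exact_mod_cast h6
  have h8 : (((L' + 1 - L₁ : ℕ) : ℕ) : ℝ) ≤ L' + 1 := by
    have : L' + 1 - L₁ ≤ L' + 1 := by omega
    exact_mod_cast this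
  have hL0 : (0 : ℝ) < (L₁ : ℝ) + 1 := by positivity
  have h9 : ((L₁ : ℝ) + 1) * (((Ico L₁ (L' + 1 - L₁)).filter H).card : ℝ) ≤
      ((L₁ : ℝ) + 1) * (q * (L' + 1) + (((range (L' + 1)).filter Bd).card : ℝ)) := by
    refine (h3.trans h2).trans ?_
    have h10 : ((L' + 1 - L₁ : ℕ) : ℝ) * (q * ((L₁ : ℝ) + 1)) ≤ (L' + 1) * (q * ((L₁ : ℝ) + 1)) :=
      mul_le_mul_of_nonneg_right h8 (by positivity)
    have h11 : (((range (L' + 1 - L₁)).filter Bd).card : ℝ) * ((L₁ : ℝ) + 1) ≤
        (((range (L' + 1)).filter Bd).card : ℝ) * ((L₁ : ℝ) + 1) :=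
      mul_le_mul_of_nonneg_right h7 hL0.le
    calc _ ≤ (L' + 1) * (q * ((L₁ : ℝ) + 1)) +
          (((range (L' + 1)).filter Bd).card : ℝ) * ((L₁ : ℝ) + 1) := add_le_add h10 h11
      _ = _ := by ring
  have h10 := le_of_mul_le_mul_left h9 hL0
  linarith

/-- **the theorem for all windows at once** -/
theorem gen_bc (hTW : S_TW) (hGL : S_GL) (hCH : S_CH) (G : ℕ → ℝ)
    (hG : ∀ ε : ℝ, 0 < ε → ∃ k₀ : ℕ, ∀ k ≥ k₀, G k ≤ Real.exp (ε * k)) {δ ε η : ℝ} (hδ : 0 < δ)
    (hε : 0 < ε) (hη : 0 < η) : ∃ L₀ : ℕ, ∀ L N : ℕ, L₀ ≤ L → 8 * (L * Real.log L) ≤ Real.log N →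
    ∀ F : Set (ℕ → ℝ), (∀ f ∈ F, ∀ b : ℝ, (fun j => f j + b) ∈ F) →
    (∀ f ∈ F, (fun j => f (j + 1)) ∈ F) →
    (∀ (s k : ℕ) (y : Fin k → ℝ), 1 ≤ s → ((pat F s k y).ncard : ℝ) ≤ G k) →
    cn N {n | ∃ L' : ℕ, L ≤ L' ∧ L' ≤ N ∧ ∃ f ∈ F, (pG δ + ε) * L' < (hw δ L L' n f : ℝ)} ≤ η * N := by
  classical
  -- we may assume `ε ≤ 1`
  obtain ⟨ε', hε'⟩ : ∃ ε' : ℝ, ε' = min ε 1 := ⟨_, rfl⟩
  have hε'0 : 0 < ε' := by rw [hε']; exact lt_min hε one_pos
  have hε'1 : ε' ≤ 1 := by rw [hε']; exact min_le_right _ _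
  have hε'ε : ε' ≤ ε := by rw [hε']; exact min_le_left _ _
  -- a slightly larger distance
  obtain ⟨δ₁, hδ₁⟩ : ∃ δ₁ : ℝ, δ₁ = δ + ε' / 16 := ⟨_, rfl⟩
  have hδ₁0 : 0 < δ₁ := by rw [hδ₁]; positivity
  have hδδ : δ < δ₁ := by rw [hδ₁]; linarith
  have hp0 : 0 ≤ pG δ := MeasureTheory.measureReal_nonneg
  have hp1 : pG δ ≤ 1 := by
    unfold pG
    exact MeasureTheory.measureReal_le_one
  have hp : pG δ₁ ≤ pG δ + ε' / 8 := by
    rw [Pool.Agent.P8H7.BC.pG_eq _ hδ.le, Pool.Agent.P8H7.BC.pG_eq _ hδ₁0.le, hδ₁]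
    have := Pool.Agent.P8H7.BC.G_lip δ (ε' / 16) (by positivity)
    linarith
  obtain ⟨C, hC⟩ : ∃ C : ℕ, C = ⌈8 / ε'⌉₊ + 1 := ⟨_, rfl⟩
  have hC1 : 1 ≤ C := by omega
  have hCr : 8 / ε' ≤ C := by
    rw [hC]
    push_cast
    linarith [Nat.le_ceil (8 / ε')]
  have hC0 : (0 : ℝ) < C := by exact_mod_cast hC1
  rw [div_le_iff₀ hε'0] at hCr
  obtain ⟨L₁₀, hfix⟩ := fix_bc hTW hGL hCH G hG hδ₁0 (show (0 : ℝ) < ε' / 8 by positivity)
    (show (0 : ℝ) < η / (4 * C) by positivity)
  -- comparison of the logarithms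
  obtain ⟨L₂, hL₂⟩ : ∃ L₂ : ℕ, ∀ L : ℕ, L₂ ≤ L → ∀ L₁ : ℕ, L ≤ 2 * C * L₁ →
      δ * Real.sqrt (2 * Real.log L) ≤ δ₁ * Real.sqrt (2 * Real.log L₁) := by
    obtain ⟨q, hq⟩ : ∃ q : ℝ, q = δ ^ 2 / δ₁ ^ 2 := ⟨_, rfl⟩
    have hq1 : q < 1 := by
      rw [hq, div_lt_one (by positivity)]
      exact pow_lt_pow_left₀ hδδ hδ.le (by norm_num)
    obtain ⟨L₂, hL₂⟩ := exists_nat_ge (Real.exp (Real.log (2 * C) / (1 - q)))
    refine ⟨L₂, fun L hL L₁ hL₁ => ?_⟩
    have hL0 : (0 : ℝ) < L := lt_of_lt_of_le (Real.exp_pos _) (hL₂.trans (by exact_mod_cast hL))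
    have h1 : Real.log (2 * C) / (1 - q) ≤ Real.log L := by
      rw [Real.le_log_iff_exp_le hL0]
      exact hL₂.trans (by exact_mod_cast hL)
    rw [div_le_iff₀ (by linarith)] at h1
    have hL₁0 : (0 : ℝ) < L₁ := by
      rcases Nat.eq_zero_or_pos L₁ with h | h
      · rw [h] at hL₁
        have : L = 0 := by omega
        rw [this] at hL0
        simp at hL0
      · exact_mod_cast h
    have h2 : Real.log L ≤ Real.log (2 * C) + Real.log L₁ := by
      rw [← Real.log_mul (by positivity) (by positivity)]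
      exact Real.log_le_log hL0 (by exact_mod_cast hL₁)
    have h3 : q * Real.log L ≤ Real.log L₁ := by nlinarith
    have h4 : δ * Real.sqrt (2 * Real.log L) = Real.sqrt (δ ^ 2 * (2 * Real.log L)) := by
      rw [Real.sqrt_mul (sq_nonneg δ), Real.sqrt_sq hδ.le]
    have h5 : δ₁ * Real.sqrt (2 * Real.log L₁) = Real.sqrt (δ₁ ^ 2 * (2 * Real.log L₁)) := by
      rw [Real.sqrt_mul (sq_nonneg δ₁), Real.sqrt_sq hδ₁0.le]
    rw [h4, h5]
    apply Real.sqrt_le_sqrt
    have h6 : δ ^ 2 = q * δ₁ ^ 2 := by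
      rw [hq]
      field_simp
    rw [h6]
    have h7 : 0 < δ₁ ^ 2 := by positivity
    nlinarith
  refine ⟨(L₁₀ + 1) * C + L₂ + 4 * C + ⌈16 / ε'⌉₊ + ⌈2 * C * NZ 3 / η⌉₊, fun L N hL hLN F hF1 hF2 hF3 => ?_⟩
  have hcL : L₂ ≤ L := by omega
  have h4C : 4 * C ≤ L := by omega
  have hc16 : 16 / ε' ≤ L := (Nat.le_ceil _).trans (by exact_mod_cast (by omega : ⌈16 / ε'⌉₊ ≤ L))
  rw [div_le_iff₀ hε'0] at hc16
  obtain ⟨L₁, hL₁⟩ : ∃ L₁ : ℕ, L₁ = L / C := ⟨_, rfl⟩
  have hL₁C : L₁ * C ≤ L := by rw [hL₁]; exact Nat.div_mul_le_self L C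
  have hL₁C2 : L < L₁ * C + C := by
    rw [hL₁]
    exact Nat.lt_div_mul_add hC1 (a := L)
  have hL₁1 : L₁₀ + 1 ≤ L₁ := by
    rw [hL₁, Nat.le_div_iff_mul_le hC1]
    omega
  have hLC : L ≤ 2 * C * L₁ := by
    have h1 : C ≤ L₁ * C := Nat.le_mul_of_pos_left C (by omega)
    have h2 : 2 * C * L₁ = L₁ * C + L₁ * C := by ring
    omega
  have hL₁L : L₁ ≤ L := le_trans (Nat.le_mul_of_pos_right L₁ (by omega)) hL₁C
  have hcmp := hL₂ L hcL L₁ hLC
  have hLr1 : (1 : ℝ) ≤ L₁ := by exact_mod_cast (by omega : 1 ≤ L₁)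
  have hLr : (L₁ : ℝ) ≤ L := by exact_mod_cast hL₁L
  have hN0 : (0 : ℝ) < N := by
    have h1 : (4 : ℝ) ≤ L := by exact_mod_cast (by omega : 4 ≤ L)
    have h2 : 0 < Real.log L := Real.log_pos (by linarith)
    have h3 : 0 < Real.log N := by nlinarith
    rcases Nat.eq_zero_or_pos N with h | h
    · rw [h] at h3
      simp at h3
    · exact_mod_cast h
  have hN1 : 1 ≤ N := by exact_mod_cast hN0
  have hNL : (L : ℝ) ≤ N := by
    have h1 : (4 : ℝ) ≤ L := by exact_mod_cast (by omega : 4 ≤ L)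
    have h2 : 1 ≤ Real.log L := by
      rw [Real.le_log_iff_exp_le (by linarith)]
      linarith [Real.exp_one_lt_d9]
    have h3 := Real.log_le_sub_one_of_pos hN0
    nlinarith
  have hcN : 2 * C * (NZ 3 : ℝ) / η ≤ L := (Nat.le_ceil _).trans
    (by exact_mod_cast (by omega : ⌈2 * C * NZ 3 / η⌉₊ ≤ L))
  rw [div_le_iff₀ hη] at hcN
  have hlog : 8 * ((L₁ : ℝ) * Real.log L₁) ≤ Real.log ((2 * N : ℕ) : ℝ) := by
    have h1 : Real.log L₁ ≤ Real.log L := Real.log_le_log (by linarith) hLr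
    have h2 : 0 ≤ Real.log L₁ := Real.log_nonneg hLr1
    have h3 : (L₁ : ℝ) * Real.log L₁ ≤ L * Real.log L := mul_le_mul hLr h1 h2 (by linarith)
    have h4 : Real.log N ≤ Real.log ((2 * N : ℕ) : ℝ) := by
      apply Real.log_le_log hN0
      push_cast
      linarith
    linarith
  have hsh := iter_shift hF2
  have hg := hfix L₁ (2 * N) (by omega) hlog F hF1 (fun b s k y hs => by
    refine le_trans ?_ (hF3 s k y hs)
    have hsub : pb F b s k y ⊆ pat F s k y := by
      rintro A ⟨f, hf, rfl⟩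
      exact ⟨_, hsh b f hf, rfl⟩
    exact_mod_cast Set.ncard_le_ncard hsub (Set.toFinite _))
  set B : ℕ → Prop := fun n => ∃ f ∈ F, (pG δ₁ + ε' / 8) * L₁ ≤ (hw δ₁ L₁ L₁ n f : ℝ) with hB
  rw [cn_eq] at hg
  rw [cn_eq]
  set E : ℕ → Prop := fun n => ∃ L' : ℕ, L ≤ L' ∧ L' ≤ N ∧ ∃ f ∈ F,
    (pG δ + ε) * L' < (hw δ L L' n f : ℝ) with hE
  obtain ⟨B', hB'⟩ : ∃ B' : ℕ → Prop, ∀ n, B' n ↔ (B n ∨ n ≤ NZ 3) := ⟨_, fun _ => Iff.rfl⟩
  have hm := maxiC B' E N C (fun n hn1 hnN hn => by
    obtain ⟨L', hL'1, hL'2, f, hf, hcnt⟩ := hn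
    refine ⟨L', hL'2, ?_⟩
    rw [hw_eq] at hcnt
    have hL'r : (L : ℝ) ≤ L' := by exact_mod_cast hL'1
    have h1 := slide (L₁ := L₁) (L' := L') (by
        have : 2 * L₁ ≤ L₁ * C := by
          rw [mul_comm]
          apply Nat.mul_le_mul_left
          rw [hC]
          have h8 : 1 ≤ ⌈8 / ε'⌉₊ := Nat.one_le_ceil_iff.2 (by positivity)
          omega
        omega) (fun j => nr δ L n f j) (fun k => B' (n + k))
        (q := pG δ₁ + ε' / 8) (by
          have : 0 ≤ pG δ₁ := MeasureTheory.measureReal_nonneg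
          positivity) (fun k hk hbk => by
        by_contra hcon
        push Not at hcon
        apply hbk
        have h3 : ¬ n + k ≤ NZ 3 := fun h => hbk ((hB' _).2 (Or.inr h))
        refine (hB' _).2 (Or.inl ?_)
        refine ⟨fun j => f (k + j), hsh k f hf, ?_⟩
        refine hcon.le.trans ?_
        rw [hw_eq]
        have hsub : (range (L₁ + 1)).filter (fun j => nr δ L n f (k + j)) ⊆
            (range (L₁ + 1)).filter (fun j => nr δ₁ L₁ (n + k) (fun j => f (k + j)) j) := by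
          intro j hj
          rw [mem_filter] at hj ⊢
          refine ⟨hj.1, ?_⟩
          have h4 := hj.2
          unfold nr at h4 ⊢
          have e1 : n + k + j = n + (k + j) := by omega
          rw [e1]
          refine h4.trans ?_
          have h5 : (3 : ℝ) < ord (n + (k + j)) := by
            by_contra h7
            push Not at h7
            rw [SG.ord_le_iff (by omega)] at h7
            omega
          exact div_le_div_of_nonneg_right hcmp (Real.log_pos (by linarith)).le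
        exact_mod_cast card_le_card hsub)
    have h2 : (((range (L' + 1)).filter (fun k => B' (n + k))).card : ℝ) ≤
        (((Icc n (n + L')).filter B').card : ℝ) := by
      have h3 : ((range (L' + 1)).filter (fun k => B' (n + k))).card ≤ ((Icc n (n + L')).filter B').card := by
        refine card_le_card_of_injOn (fun k => n + k) (fun k hk => ?_) (fun x _ y _ h => ?_)
        · rw [mem_coe, mem_filter, mem_range] at hk
          rw [mem_coe, mem_filter, mem_Icc]
          refine ⟨⟨?_, ?_⟩, hk.2⟩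
          · show n ≤ n + k
            omega
          · show n + k ≤ n + L'
            omega
        · simpa using h
      exact_mod_cast h3
    set X := (((Icc n (n + L')).filter B').card : ℝ) with hX
    have hCL : (C : ℝ) * L₁ ≤ L := by
      have : C * L₁ ≤ L := by rw [mul_comm]; exact hL₁C
      exact_mod_cast this
    -- `8 ≤ C ε'`, so `L₁ ≤ ε' L / 8`
    have h3 : (L₁ : ℝ) ≤ ε' / 8 * L' := by
      have h4 : 8 * (L₁ : ℝ) ≤ C * ε' * L₁ := mul_le_mul_of_nonneg_right hCr (by linarith)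
      have h5 : ε' * (C * L₁) ≤ ε' * L := mul_le_mul_of_nonneg_left hCL hε'0.le
      have h6 : ε' * L ≤ ε' * L' := mul_le_mul_of_nonneg_left hL'r hε'0.le
      nlinarith
    have h4 : (pG δ + ε') * L' ≤ (pG δ + ε) * L' := mul_le_mul_of_nonneg_right (by linarith) (by linarith)
    have h5 : (pG δ₁ + ε' / 8) * (L' + 1) ≤ (pG δ + ε' / 4) * (L' + 1) :=
      mul_le_mul_of_nonneg_right (by linarith) (by linarith)
    have h6 : ε' * L' ≥ 16 := by nlinarith
    have h7 : ε' / 4 * (L' + 1) ≤ X := by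
      have h8 : (pG δ + ε' / 4) * ((L' : ℝ) + 1) = pG δ * L' + ε' * L' / 4 + pG δ + ε' / 4 := by ring
      have h9 : (pG δ + ε') * (L' : ℝ) = pG δ * L' + ε' * L' := by ring
      have h10 : ε' / 8 * (L' : ℝ) = ε' * L' / 8 := by ring
      have h11 : ε' / 4 * ((L' : ℝ) + 1) = ε' * L' / 4 + ε' / 4 := by ring
      rw [h8] at h5
      rw [h9] at h4
      rw [h10] at h3
      rw [h11]
      linarith
    have h8 : ((L' : ℝ) + 1) ≤ C * X := by
      have h9 : C * (ε' / 4 * (L' + 1)) ≤ C * X := mul_le_mul_of_nonneg_left h7 hC0.le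
      have h10 : (L' : ℝ) + 1 ≤ C * (ε' / 4 * (L' + 1)) := by
        have h11 : 0 < (L' : ℝ) + 1 := by linarith
        nlinarith
      linarith
    have h9 : ((L' + 1 : ℕ) : ℝ) ≤ ((C * ((Icc n (n + L')).filter B').card : ℕ) : ℝ) := by
      push_cast
      exact h8
    exact_mod_cast h9)
  have hB'c : ((Icc 1 (2 * N)).filter B').card ≤ ((Icc 1 (2 * N)).filter B).card + NZ 3 := by
    have h1 : (Icc 1 (2 * N)).filter B' ⊆ (Icc 1 (2 * N)).filter B ∪ Icc 1 (NZ 3) := by
      intro n hn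
      rw [mem_filter, mem_Icc] at hn
      rw [mem_union, mem_filter, mem_Icc, mem_Icc]
      rcases (hB' n).1 hn.2 with h | h
      · exact Or.inl ⟨hn.1, h⟩
      · exact Or.inr ⟨hn.1.1, h⟩
    have h2 := (card_le_card h1).trans (card_union_le _ _)
    rw [Nat.card_Icc, Nat.add_sub_cancel] at h2
    exact h2
  have h1 : (((Icc 1 N).filter E).card : ℝ) ≤ C * ((((Icc 1 (2 * N)).filter B).card : ℝ) + NZ 3) := by
    have h2 := hm.trans (Nat.mul_le_mul_left C hB'c)
    exact_mod_cast h2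
  refine h1.trans ?_
  have h2 : (C : ℝ) * (((Icc 1 (2 * N)).filter B).card : ℝ) ≤ C * (η / (4 * C) * ((2 * N : ℕ) : ℝ)) :=
    mul_le_mul_of_nonneg_left hg hC0.le
  have h3 : (C : ℝ) * (η / (4 * C) * ((2 * N : ℕ) : ℝ)) = η / 2 * N := by
    push_cast
    field_simp
    ring
  have h4 : (L : ℝ) * η ≤ N * η := mul_le_mul_of_nonneg_right hNL hη.le
  rw [mul_add]
  linarith

end Pool.Agent.P8H60.BC
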