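import Pool.Agent.P8H60.BC.Max

/-! # The theorem for solutions of linear recurrences -/

set_option autoImplicit false

namespace Pool.Agent.P8H60.BC

open Finset
open Pool.Agent.R846.UL (cn cn_mono)
open Pool.Agent.P8H60.LM (S_TW)

lemma Fd_const {d : ℕ} {g : ℕ → ℝ} (hg : g ∈ Fd d) (c : ℝ) : (fun j => g j + c) ∈ Fd (d + 1) := by
  obtain ⟨b, hb, h⟩ := hg
  refine ⟨fun l => Fin.cons (α := fun _ => ℝ) 0 b l - Fin.snoc (α := fun _ => ℝ) b 0 l, ?_, fun j => ?_⟩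
  · intro h0
    apply hb
    have h1 : ∀ l, Fin.cons (α := fun _ => ℝ) 0 b l = Fin.snoc (α := fun _ => ℝ) b 0 l := fun l =>
      sub_eq_zero.1 (congrFun h0 l)
    have h2 : ∀ l : Fin (d + 1), b l = 0 := by
      intro l
      induction l using Fin.induction with
      | zero =>
        have h3 := h1 (Fin.castSucc (0 : Fin (d + 1)))
        rw [Fin.snoc_castSucc] at h3
        rw [← h3]
        rfl
      | succ i ih =>
        have h3 := h1 (Fin.castSucc i.succ)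
        rw [Fin.snoc_castSucc, ← Fin.succ_castSucc, Fin.cons_succ] at h3
        rw [← h3]
        exact ih
    exact funext h2
  · simp only [sub_mul, sum_sub_distrib]
    have e1 : ∑ l : Fin (d + 1 + 1), Fin.cons (α := fun _ => ℝ) 0 b l * (g (j + l) + c) =
        ∑ l : Fin (d + 1), b l * g (j + 1 + l) + c * ∑ l : Fin (d + 1), b l := by
      rw [Fin.sum_univ_succ]
      simp only [Fin.cons_zero, zero_mul, zero_add, Fin.cons_succ, Fin.val_succ]
      rw [mul_sum, ← sum_add_distrib]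
      refine sum_congr rfl fun l _ => ?_
      have : j + ((l : ℕ) + 1) = j + 1 + l := by omega
      rw [this]
      ring
    have e2 : ∑ l : Fin (d + 1 + 1), Fin.snoc (α := fun _ => ℝ) b 0 l * (g (j + l) + c) =
        ∑ l : Fin (d + 1), b l * g (j + l) + c * ∑ l : Fin (d + 1), b l := by
      rw [Fin.sum_univ_castSucc]
      simp only [Fin.snoc_castSucc, Fin.snoc_last, zero_mul, add_zero, Fin.val_castSucc]
      rw [mul_sum, ← sum_add_distrib]
      exact sum_congr rfl fun l _ => by ring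
    rw [e1, e2, h j, h (j + 1)]
    ring

/-- **no solution of a linear recurrence follows the zeros** -/
theorem rec_bc (hTW : S_TW) (hGL : S_GL) (hCH : S_CH) (hRC : S_RC) (d : ℕ) {δ ε η : ℝ} (hδ : 0 < δ)
    (hε : 0 < ε) (hη : 0 < η) : ∃ L₀ : ℕ, ∀ L N : ℕ, L₀ ≤ L → 8 * (L * Real.log L) ≤ Real.log N →
    cn N {n | ∃ L' : ℕ, L ≤ L' ∧ L' ≤ N ∧ ∃ f ∈ Fd d, (pG δ + ε) * L' < (hw δ L L' n f : ℝ)} ≤
      η * N := by
  classical
  set G : ℕ → ℝ := fun k => ⨆ p : ℕ × (Fin k → ℝ), ((pat (Fd (d + 1)) p.1 k p.2).ncard : ℝ) with hG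
  have hbdd : ∀ k, BddAbove (Set.range fun p : ℕ × (Fin k → ℝ) =>
      ((pat (Fd (d + 1)) p.1 k p.2).ncard : ℝ)) := by
    intro k
    refine ⟨((Set.univ : Set (Set (Fin k))).ncard : ℝ), ?_⟩
    rintro x ⟨p, rfl⟩
    have h1 : (pat (Fd (d + 1)) p.1 k p.2).ncard ≤ (Set.univ : Set (Set (Fin k))).ncard :=
      Set.ncard_le_ncard (Set.subset_univ _) (Set.toFinite _)
    exact Nat.cast_le.2 h1
  obtain ⟨L₀, h⟩ := gen_bc hTW hGL hCH G (fun e he => by
    obtain ⟨k₀, hk₀⟩ := hRC (d + 1) e he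
    refine ⟨k₀, fun k hk => ?_⟩
    exact ciSup_le fun p => hk₀ k hk p.1 p.2) hδ hε hη
  refine ⟨L₀, fun L N hL hLN => ?_⟩
  refine le_trans (cn_mono fun n _ _ hn => ?_) (h L N hL hLN
    {f | ∃ g ∈ Fd d, ∃ c : ℝ, f = fun j => g j + c} ?_ ?_ ?_)
  · obtain ⟨L', h1, h2, f, hf, h3⟩ := hn
    exact ⟨L', h1, h2, f, ⟨f, hf, 0, by simp⟩, h3⟩
  · rintro f ⟨g, hg, c, rfl⟩ b
    exact ⟨g, hg, c + b, by funext j; ring⟩
  · rintro f ⟨g, ⟨b, hb, hg⟩, c, rfl⟩
    refine ⟨fun j => g (j + 1), ⟨b, hb, fun j => ?_⟩, c, rfl⟩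
    have h1 := hg (j + 1)
    refine Eq.trans (sum_congr rfl fun l _ => ?_) h1
    have : j + (l : ℕ) + 1 = j + 1 + l := by omega
    show b l * g (j + l + 1) = b l * g (j + 1 + l)
    rw [this]
  · intro s k y _
    have hsub : pat {f | ∃ g ∈ Fd d, ∃ c : ℝ, f = fun j => g j + c} s k y ⊆ pat (Fd (d + 1)) s k y := by
      rintro A ⟨f, ⟨g, hg, c, rfl⟩, rfl⟩
      exact ⟨_, Fd_const hg c, rfl⟩
    have h1 : ((pat {f | ∃ g ∈ Fd d, ∃ c : ℝ, f = fun j => g j + c} s k y).ncard : ℝ) ≤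
        ((pat (Fd (d + 1)) s k y).ncard : ℝ) := by
      exact_mod_cast Set.ncard_le_ncard hsub (Set.toFinite _)
    exact h1.trans (le_ciSup (hbdd k) (s, y))

end Pool.Agent.P8H60.BC
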