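import Pool.Agent.P8H60.BC.Vec
import Pool.Agent.P8H60.BC.Gau
import Pool.Agent.P8H60.LM.Near2

/-! # The theorem for the run following a height -/

set_option autoImplicit false

namespace Pool.Agent.P8H60.BC

open Filter Topology MeasureTheory
open Pool.Agent.R846.VS (Dd)
open Pool.Agent.P8H60.LM (S_TW nearQ near_all2)
open SG (NZ ord)

/-- the sign patterns of a family of vectors -/
def pv {K : ℕ} (V : Set (Fin K → ℝ)) (y : Fin K → ℝ) : Set (Set (Fin K)) :=
  {A | ∃ v ∈ V, A = {i : Fin K | v i ≤ y i}}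

/-- the number of the label vectors -/
lemma lab_card {K M : ℕ} (V : Set (Fin K → ℝ)) (y : Fin M → Fin K → ℝ) {g : ℝ}
    (hg : ∀ y : Fin K → ℝ, ((pv V y).ncard : ℝ) ≤ g)
    (𝒞 : Finset (Fin K → Fin M → Bool))
    (h𝒞 : ∀ c ∈ 𝒞, ∃ v ∈ V, ∀ i m, c i m = true ↔ v i ≤ y m i) : (𝒞.card : ℝ) ≤ g ^ M := by
  classical
  have hfin : ∀ m, (pv V (y m)).Finite := fun m => Set.toFinite _
  set Φ : (Fin K → Fin M → Bool) → Fin M → Set (Fin K) := fun c m => {i | c i m = true} with hΦ
  have h1 : 𝒞.card ≤ (Fintype.piFinset fun m => (hfin m).toFinset).card := by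
    refine Finset.card_le_card_of_injOn Φ (fun c hc => ?_) (fun c _ c' _ h => ?_)
    · rw [Finset.mem_coe, Fintype.mem_piFinset]
      intro m
      rw [Set.Finite.mem_toFinset]
      obtain ⟨v, hv, h⟩ := h𝒞 c hc
      refine ⟨v, hv, ?_⟩
      ext i
      simp only [hΦ, Set.mem_ofPred_eq]
      exact h i m
    · funext i m
      have h2 := congrFun h m
      have h3 : (i ∈ Φ c m) ↔ (i ∈ Φ c' m) := by rw [h2]
      simp only [hΦ, Set.mem_ofPred_eq] at h3
      exact Bool.eq_iff_iff.2 h3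
  rw [Fintype.card_piFinset] at h1
  have h2 : (𝒞.card : ℝ) ≤ ∏ m : Fin M, ((hfin m).toFinset.card : ℝ) := by exact_mod_cast h1
  refine h2.trans ?_
  calc ∏ m : Fin M, ((hfin m).toFinset.card : ℝ) ≤ ∏ _m : Fin M, g := by
        refine Finset.prod_le_prod (fun _ _ => Nat.cast_nonneg _) fun m _ => ?_
        have := hg (y m)
        rwa [Set.ncard_eq_toFinset_card _ (hfin m)] at this
    _ = g ^ M := by simp

/-- **for most heights no vector of a family with few sign patterns is near the ordinates at many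
places** -/
theorem run_bc (hTW : S_TW) (hGL : S_GL) (hCH : S_CH) {δ ε : ℝ} (hδ : 0 < δ) (hε : 0 < ε) :
    ∃ (c : ℝ) (M : ℕ), 0 < c ∧ ∀ (K : ℕ) (g η : ℝ), 1 ≤ K → 0 < η → g ^ M ≤ Real.exp (c * K) →
    Real.exp (-(c * K)) ≤ η / 4 → ∀ κ : ℝ, 0 < κ → ∀ S' : ℕ, ∃ L₀ : ℕ, ∀ (L : ℕ) (T : ℝ), L₀ ≤ L →
    1 ≤ T → ((2 * L : ℕ) : ℝ) * Real.log ((2 * L : ℕ) : ℝ) ≤ Real.log T →
    ∀ k : Fin K → ℕ, (∀ i, k i ≤ L) → (∀ i j, i ≠ j → κ * L ≤ |(k i : ℝ) - k j|) →
    ∀ V : Set (Fin K → ℝ), (∀ v ∈ V, ∀ b : ℝ, (fun i => v i + b) ∈ V) →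
    (∀ y : Fin K → ℝ, ((pv V y).ncard : ℝ) ≤ g) → ∀ s ≤ S',
    volume {t ∈ Set.Icc T (2 * T) | ∃ v ∈ V, (pG δ + ε) * K ≤
      (({i | |ord (NZ t + 1 + (L - s + k i)) - v i| ≤ δ * Real.sqrt (2 * Real.log L) / Real.log T} :
        Set (Fin K)).ncard : ℝ)} ≤ ENNReal.ofReal (η * T) := by
  classical
  have hpi := Real.pi_pos
  have hpi3 := Real.pi_gt_three
  have hpi4 := Real.pi_lt_d2
  obtain ⟨δ', M, θ, c, hδ', hc, hgau⟩ := gau hGL hCH δ ε hδ hε
  refine ⟨c, M, hc, fun K g η hK hη hg hcη κ hκ S' => ?_⟩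
  obtain ⟨κ', hκ'⟩ : ∃ κ' : ℝ, κ' = min (κ / 2) (1 / 8) := ⟨_, rfl⟩
  have hκ'0 : 0 < κ' := by rw [hκ']; exact lt_min (by linarith) (by norm_num)
  have hκ'1 : κ' ≤ κ / 2 := by rw [hκ']; exact min_le_left _ _
  have hκ'2 : κ' ≤ 1 / 8 := by rw [hκ']; exact min_le_right _ _
  obtain ⟨ε₀, hε₀⟩ : ∃ ε₀ : ℝ, ε₀ = (δ' - δ) / 10 := ⟨_, rfl⟩
  have hε₀0 : 0 < ε₀ := by rw [hε₀]; linarith
  obtain ⟨A₁, Q, hA₁, hQ, hnear⟩ := near_all2 (η := η / 2) (by positivity) hε₀0 K hK
  obtain ⟨R₁, hR₁, hjoint⟩ := joint_x hTW 1 le_rfl hκ'0 hK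
    (ι := {𝒞 : Finset (Fin K → Fin M → Bool) // (𝒞.card : ℝ) ≤ Real.exp (c * K)})
    (fun 𝒞 => FS δ' ((pG δ + ε) * K) θ 𝒞.1) (fun 𝒞 => FS_closed _ _ _ _) (η := η / 4) (ρ := η / 4)
    (by positivity) (fun 𝒞 => (hgau K 𝒞.1 𝒞.2).trans hcη)
  refine ⟨⌈A₁⌉₊ + ⌈R₁⌉₊ + 4 * S' + 4, fun L T hL hT hlog k hk1 hk2 V hV1 hV2 s hs => ?_⟩
  obtain ⟨a, ha⟩ : ∃ a : ℕ, a = 2 * L := ⟨_, rfl⟩
  rw [← ha] at hlog
  have har : (a : ℝ) = 2 * L := by rw [ha]; push_cast; ring
  have haA : A₁ ≤ a := (Nat.le_ceil A₁).trans (by exact_mod_cast (by omega : ⌈A₁⌉₊ ≤ a))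
  have haR : R₁ ≤ a := (Nat.le_ceil R₁).trans (by exact_mod_cast (by omega : ⌈R₁⌉₊ ≤ a))
  have ha3 : (3 : ℝ) ≤ a := hA₁.trans haA
  have hla : 1 ≤ Real.log a := by
    rw [Real.le_log_iff_exp_le (by linarith)]
    linarith [Real.exp_one_lt_d9]
  have hL4 : (4 : ℝ) ≤ L := by exact_mod_cast (by omega : 4 ≤ L)
  have hL0 : 0 < Real.log T := by nlinarith
  have hT0 : 0 < T := by linarith
  set r := Real.sqrt (Real.log a) with hr
  have hr1 : 1 ≤ r := Real.one_le_sqrt.2 hla
  -- the positions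
  set x : Fin (K + 1) → ℕ := Fin.cons (L / 2) (fun i => L - s + k i) with hx
  have hx0 : x 0 = L / 2 := rfl
  have hxs : ∀ i : Fin K, x i.succ = L - s + k i := fun i => by rw [hx, Fin.cons_succ]
  have hxa : ∀ i, x i ≤ a := by
    intro i
    refine Fin.cases ?_ (fun j => ?_) i
    · rw [hx0]; omega
    · rw [hxs]
      have := hk1 j
      omega
  have hxar : ∀ i, (x i : ℝ) ≤ a := fun i => by exact_mod_cast hxa i
  have hκa : κ' * a ≤ L / 4 := by
    rw [har]
    nlinarith
  have hL4n : (L : ℝ) / 4 ≤ (L / 2 : ℕ) := by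
    have h1 : L ≤ 4 * (L / 2) := by omega
    have h2 : (L : ℝ) ≤ 4 * ((L / 2 : ℕ) : ℝ) := by exact_mod_cast h1
    linarith
  have hsep0 : ∀ i : Fin K, (L : ℝ) / 4 ≤ (x i.succ : ℝ) - x 0 := by
    intro i
    rw [hxs, hx0]
    have h1 : L + 4 * (L / 2) ≤ 4 * (L - s + k i) := by omega
    have h2 : (L : ℝ) + 4 * ((L / 2 : ℕ) : ℝ) ≤ 4 * ((L - s + k i : ℕ) : ℝ) := by exact_mod_cast h1
    linarith
  have hPX : PX κ' (a : ℝ) (fun i => (x i : ℝ)) := by
    refine ⟨fun i => ?_, hxar, fun i j hij => ?_⟩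
    · refine Fin.cases ?_ (fun j => ?_) i
      · rw [hx0]; linarith
      · have := hsep0 j
        have h0 : (0 : ℝ) ≤ x 0 := Nat.cast_nonneg _
        linarith
    · show κ' * a ≤ |(x i : ℝ) - x j|
      revert hij
      refine Fin.cases ?_ (fun i' => ?_) i
      · refine Fin.cases (fun h => absurd rfl h) (fun j' _ => ?_) j
        rw [abs_sub_comm]
        refine le_trans ?_ (le_abs_self _)
        linarith [hsep0 j']
      · refine Fin.cases (fun _ => ?_) (fun j' h => ?_) j
        · refine le_trans ?_ (le_abs_self _)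
          linarith [hsep0 i']
        · have h1 : i' ≠ j' := fun h' => h (by rw [h'])
          have h2 := hk2 i' j' h1
          rw [hxs, hxs]
          have h3 : ((L - s + k i' : ℕ) : ℝ) - ((L - s + k j' : ℕ) : ℝ) = (k i' : ℝ) - k j' := by
            push_cast
            ring
          rw [h3]
          refine le_trans ?_ h2
          rw [har]
          nlinarith
  set P : Finset ℕ := Finset.univ.image x with hP
  have hPm : ∀ i, x i ∈ P := fun i => Finset.mem_image.2 ⟨i, Finset.mem_univ i, rfl⟩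
  have hPc : P.card ≤ 4 * K := by
    have h1 : P.card ≤ (Finset.univ : Finset (Fin (K + 1))).card := Finset.card_image_le
    rw [Finset.card_univ, Fintype.card_fin] at h1
    omega
  have hPa : ∀ y ∈ P, y ≤ a := by
    intro y hy
    obtain ⟨i, -, rfl⟩ := Finset.mem_image.1 hy
    exact hxa i
  have hv1 := hnear a T haA hT hlog P hPc hPa
  -- the labels
  set ℓ := Real.log T / (2 * Real.pi) with hℓ
  have hℓ0 : 0 < ℓ := by positivity
  have h2s : 0 < Real.sqrt 2 := Real.sqrt_pos.2 (by norm_num)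
  set w := Real.sqrt 2 * (Real.pi / r) with hw
  have hw0 : 0 < w := by positivity
  set nv : (Fin K → ℝ) → Fin K → ℝ := fun v i => w * (v i * ℓ - x i.succ - 1) with hnv
  set 𝒞 : Finset (Fin K → Fin M → Bool) := Finset.univ.filter fun c => ∃ v ∈ V,
    ∀ i m, c i m = true ↔ nv v i ≤ θ m with h𝒞
  have hcard : (𝒞.card : ℝ) ≤ Real.exp (c * K) := by
    refine (lab_card V (fun m i => (θ m / w + x i.succ + 1) / ℓ) hV2 𝒞 fun c hc => ?_).trans hg
    obtain ⟨v, hv, h⟩ := (Finset.mem_filter.1 hc).2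
    refine ⟨v, hv, fun i m => (h i m).trans ?_⟩
    simp only [hnv]
    rw [le_div_iff₀ hℓ0]
    constructor
    · intro h1
      have h2 : v i * ℓ - x i.succ - 1 ≤ θ m / w := by
        rw [le_div_iff₀ hw0]
        linarith
      linarith
    · intro h1
      have h2 : v i * ℓ - x i.succ - 1 ≤ θ m / w := by linarith
      rw [le_div_iff₀ hw0] at h2
      linarith
  have hv2 := hjoint a T haR hT (by linarith) (fun i => (x i : ℝ)) hPX ⟨𝒞, hcard⟩
  refine (measure_mono ?_).trans ((measure_union_le _ _).trans ((add_le_add hv1 hv2).trans ?_))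
  · rintro t ⟨ht, v, hv, hcnt⟩
    by_cases hG : nearQ P T (ε₀ * Real.sqrt (Real.log a)) (Q * Real.sqrt (Real.log a)) t
    · right
      refine ⟨ht, ?_⟩
      -- the shifted vector
      set b := -t - tau (a : ℝ) T t (fun i => (x i : ℝ)) / (w * ℓ) with hb
      have hvb := hV1 v hv b
      set v' : Fin K → ℝ := fun i => v i + b with hv'
      show zv (a : ℝ) T (fun i => (x i : ℝ)) t ∈ FS δ' ((pG δ + ε) * K) θ 𝒞
      refine ⟨fun i m => decide (nv v' i ≤ θ m), ?_, hcnt.trans ?_⟩
      · rw [h𝒞, Finset.mem_filter]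
        refine ⟨Finset.mem_univ _, v', hvb, fun i m => ?_⟩
        simp
      · unfold cnt
        have hsub : ({i | |ord (NZ t + 1 + (L - s + k i)) - v i| ≤
            δ * Real.sqrt (2 * Real.log L) / Real.log T} : Set (Fin K)) ⊆
            {i | zv (a : ℝ) T (fun i => (x i : ℝ)) t i ∈
              Bs δ' θ (fun m => decide (nv v' i ≤ θ m))} := by
          intro i hi
          rw [Set.mem_ofPred_eq] at hi ⊢
          have hkey : |zv (a : ℝ) T (fun i => (x i : ℝ)) t i - nv v' i| ≤ δ' := by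
            have h1 := (hG (x i.succ) (hPm _)).1
            rw [← hℓ, ← hr] at h1
            have h1' : |(ord (NZ t + 1 + x i.succ) - t) * ℓ - (x i.succ + 1) + Dd T t (x i.succ)| ≤
                2 * (ε₀ * r) := h1
            have h2 : zv (a : ℝ) T (fun i => (x i : ℝ)) t i - nv v' i =
                w * (ℓ * (ord (NZ t + 1 + x i.succ) - v i)) -
                w * ((ord (NZ t + 1 + x i.succ) - t) * ℓ - (x i.succ + 1) + Dd T t (x i.succ)) := by
              simp only [hnv, hv', hb]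
              unfold zv Zf
              rw [← hr]
              have e1 : w * ((v i + (-t - tau (a : ℝ) T t (fun i => (x i : ℝ)) / (w * ℓ))) * ℓ -
                  (x i.succ : ℝ) - 1) = w * (v i * ℓ - t * ℓ - x i.succ - 1) -
                  tau (a : ℝ) T t (fun i => (x i : ℝ)) := by
                field_simp
                ring
              rw [e1]
              simp only [hw]
              ring
            rw [h2]
            refine (abs_sub _ _).trans ?_
            rw [abs_mul, abs_mul w ((ord (NZ t + 1 + x i.succ) - t) * ℓ - (x i.succ + 1) +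
              Dd T t (x i.succ)), abs_of_pos hw0, abs_mul, abs_of_pos hℓ0]
            rw [← hxs] at hi
            have h3 : w * (ℓ * |ord (NZ t + 1 + x i.succ) - v i|) ≤ δ := by
              have h4 : w * (ℓ * |ord (NZ t + 1 + x i.succ) - v i|) ≤
                  w * (ℓ * (δ * Real.sqrt (2 * Real.log L) / Real.log T)) :=
                mul_le_mul_of_nonneg_left (mul_le_mul_of_nonneg_left hi hℓ0.le) hw0.le
              refine h4.trans ?_
              have h5 : Real.sqrt (2 * Real.log L) = Real.sqrt 2 * Real.sqrt (Real.log L) :=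
                Real.sqrt_mul (by norm_num) _
              have h6 : Real.sqrt (Real.log L) ≤ r := by
                apply Real.sqrt_le_sqrt
                apply Real.log_le_log (by linarith)
                linarith
              have h7 : Real.sqrt 2 * Real.sqrt 2 = 2 := Real.mul_self_sqrt (by norm_num)
              rw [h5]
              have h8 : w * (ℓ * (δ * (Real.sqrt 2 * Real.sqrt (Real.log L)) / Real.log T)) =
                  (Real.sqrt 2 * Real.sqrt 2) / 2 * (δ * (Real.sqrt (Real.log L) / r)) := by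
                simp only [hw, hℓ]
                field_simp
              rw [h8, h7]
              have h9 : Real.sqrt (Real.log L) / r ≤ 1 := by
                rw [div_le_one (by linarith)]
                exact h6
              have h10 : δ * (Real.sqrt (Real.log L) / r) ≤ δ * 1 :=
                mul_le_mul_of_nonneg_left h9 hδ.le
              linarith
            have h4 : w * |(ord (NZ t + 1 + x i.succ) - t) * ℓ - (x i.succ + 1) + Dd T t (x i.succ)| ≤
                δ' - δ := by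
              refine (mul_le_mul_of_nonneg_left h1' hw0.le).trans ?_
              have h5 : w * (2 * (ε₀ * r)) = 2 * Real.sqrt 2 * Real.pi * ε₀ := by
                simp only [hw]
                field_simp
              rw [h5]
              have h6 : Real.sqrt 2 ≤ 3 / 2 := by
                rw [Real.sqrt_le_left (by norm_num)]
                norm_num
              have h7 : 2 * Real.sqrt 2 * Real.pi ≤ 10 := by nlinarith
              calc 2 * Real.sqrt 2 * Real.pi * ε₀ ≤ 10 * ε₀ := mul_le_mul_of_nonneg_right h7 hε₀0.le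
                _ = δ' - δ := by rw [hε₀]; ring
            linarith
          rw [abs_le] at hkey
          refine ⟨fun m hm => ?_, fun m hm => ?_⟩
          · have h1 : nv v' i ≤ θ m := of_decide_eq_true hm
            linarith [hkey.2]
          · have h1 : ¬ nv v' i ≤ θ m := of_decide_eq_false hm
            linarith [hkey.1, not_le.1 h1]
        exact_mod_cast Set.ncard_le_ncard hsub (Set.toFinite _)
    · left
      exact ⟨ht, hG⟩
  · rw [← ENNReal.ofReal_add (by positivity) (by positivity)]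
    apply ENNReal.ofReal_le_ofReal
    linarith

end Pool.Agent.P8H60.BC
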