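import Mathlib

/-!
# Statements of the packages of project BC (no curve of low complexity follows the zeta zeros)
-/

set_option autoImplicit false

namespace Pool.Agent.P8H60.BC

open Finset MeasureTheory ProbabilityTheory

/-- the mass which the standard normal law gives to `[-δ, δ]` -/
noncomputable def pG (δ : ℝ) : ℝ := (gaussianReal 0 1).real (Set.Icc (-δ) δ)

/-- contains all real numbers at distance at most `δ` from a number `v` with `v ≤ θ m ↔ c m = true` -/
def Bs (δ : ℝ) {M : ℕ} (θ : Fin M → ℝ) (c : Fin M → Bool) : Set ℝ :=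
  {z | (∀ m, c m = true → z ≤ θ m + δ) ∧ (∀ m, c m = false → θ m - δ ≤ z)}

/-- package GL (one dimensional normal law). Take `θ` an arithmetic progression with small difference
`h` from `-R` to `R`, `δ' = δ + h`.  If `c` is constantly `true` the set is `z ≤ -R + δ'`, if it is
constantly `false` it is `R - δ' ≤ z`; otherwise two neighbours `m, m + 1` have different values and the
set is contained in an interval of length `2 δ' + h`, whose mass is at most the mass of the interval of
the same length around `0` (compare the density at `u + r` and `u - r`), and this mass depends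
continuously on the length. -/
def S_GL : Prop := ∀ δ ε : ℝ, 0 < δ → 0 < ε → ∃ (δ' : ℝ) (M : ℕ) (θ : Fin M → ℝ), δ < δ' ∧
  ∀ c : Fin M → Bool, (gaussianReal 0 1).real (Bs δ' θ c) ≤ pG δ + ε

/-- package CH (Chernoff bound). For `λ > 0` small, `∫ ∏ exp (λ 1_{B i}) = ∏ (1 + p_i (e^λ - 1))`. -/
def S_CH : Prop := ∀ p ε : ℝ, 0 ≤ p → 0 < ε → ∃ c : ℝ, 0 < c ∧ ∀ (K : ℕ) (B : Fin K → Set ℝ),
  (∀ i, MeasurableSet (B i)) → (∀ i, (gaussianReal 0 1).real (B i) ≤ p) →
  (Measure.pi fun _ : Fin K => gaussianReal 0 1).real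
    {z | (p + ε) * K ≤ (({i | z i ∈ B i} : Set (Fin K)).ncard : ℝ)} ≤ Real.exp (-(c * K))

/-- the solutions of linear recurrences of order at most `d` with constant coefficients -/
def Fd (d : ℕ) : Set (ℕ → ℝ) :=
  {f | ∃ b : Fin (d + 1) → ℝ, b ≠ 0 ∧ ∀ j : ℕ, ∑ l : Fin (d + 1), b l * f (j + l) = 0}

/-- the sets of the `i < k` with `f (i s) ≤ y i`, for `f` in a family `F` -/
def pat (F : Set (ℕ → ℝ)) (s k : ℕ) (y : Fin k → ℝ) : Set (Set (Fin k)) :=
  {A | ∃ f ∈ F, A = {i : Fin k | f (i * s) ≤ y i}}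

/-- package AL (algebra). Let `B = ∑ b_l X^l`, a nonzero polynomial of degree at most `d`; the `d + 1`
polynomials `X^(h_l s)` are linearly dependent modulo `B`, so that `∑ r_l X^(h_l s) = B Q` with `r ≠ 0`;
apply this polynomial in the shift operator to `f`. (No condition on `h`, `s`.) -/
def S_AL : Prop := ∀ (d s : ℕ) (h : Fin (d + 1) → ℕ), ∀ f ∈ Fd d, ∃ r : Fin (d + 1) → ℝ, r ≠ 0 ∧
  ∀ x : ℕ, ∑ l, r l * f (x + h l * s) = 0

/-- package SS (Sauer-Shelah). `Finset.card_le_card_shatterer`, `Finset.card_shatterer_le_sum_vcDim`, and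
`∑_{i ≤ ρ k} C(k, i) ≤ ρ^(-ρ k) (1 + ρ)^k ≤ exp (k (ρ log (1 / ρ) + ρ))`. -/
def S_SS : Prop := ∀ ε : ℝ, 0 < ε → ∃ ρ : ℝ, 0 < ρ ∧ ∀ (k : ℕ) (𝒜 : Finset (Finset (Fin k))),
  Real.exp (ε * k) < 𝒜.card → ∃ S : Finset (Fin k), ρ * k ≤ S.card ∧ 𝒜.Shatters S

/-- package TU (tuples of the same shape in a dense set). Cut `[0, k)` into intervals of length `m ~ 2 D
/ ρ`; at least `c k` of them contain at least `D` elements of `S`; pigeonhole for their positions inside
the interval. -/
def S_TU : Prop := ∀ (D : ℕ) (ρ : ℝ), 0 < ρ → ∃ (c : ℝ) (k₀ : ℕ), 0 < c ∧ ∀ k : ℕ, k₀ ≤ k →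
  ∀ S : Finset (Fin k), ρ * k ≤ S.card → ∃ (h : Fin D → ℕ) (A : Finset ℕ), Function.Injective h ∧
    c * k ≤ A.card ∧ (∀ i ∈ A, ∀ l, ∃ x ∈ S, (x : ℕ) = i + h l) ∧
    ∀ i ∈ A, ∀ i' ∈ A, ∀ l l', i + h l = i' + h l' → i = i'

/-- package PT (patterns). Let all patterns on the places `(i, l)` be realised by functions `f` with
relations as in `S_AL`, the coefficients `r` depending on `f`; then there are at most `C` values of `i`.
Proof: we may assume that some `r_l` is positive. If `t_i = ∑ r_l y (i, l) ≥ 0` then the pattern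
`l ↦ (r_l ≤ 0)` of the truth values of `f ≤ y` is impossible at `i`; if `t_i < 0` the pattern
`l ↦ (0 < r_l)` is impossible.  So the pattern of `f` avoids at every `i` a pattern determined by the sign
vector of `r` and by the truth value of `t_i < 0`; the latter take at most `(D + 1) N^D` values, as `r`
varies (`Pool.Agent.R846.VE.vc_lin` in `Pool/Agent/R846/VE/C.lean`), and each choice of the forbidden
patterns is compatible with at most `(2^D - 1)^N` of the `2^(D N)` patterns. -/
def S_PT : Prop := ∀ D : ℕ, 1 ≤ D → ∃ C : ℕ, ∀ (N : ℕ) (y : Fin N → Fin D → ℝ),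
  (∀ σ : Fin N → Fin D → Prop, ∃ (f : Fin N → Fin D → ℝ) (r : Fin D → ℝ), r ≠ 0 ∧
    (∀ i, ∑ l, r l * f i l = 0) ∧ ∀ i l, f i l ≤ y i l ↔ σ i l) → N ≤ C

/-- package RC (assembly of AL, SS, TU, PT): subexponentially many patterns. If there are more than
`exp (ε k)` patterns, `S_SS` gives a shattered set of positive density, `S_TU` (`D = d + 1`) many tuples
of the same shape in it, and then `S_AL` (at `x = i s`) and `S_PT` give a contradiction for large `k`. -/
def S_RC : Prop := ∀ (d : ℕ) (ε : ℝ), 0 < ε → ∃ k₀ : ℕ, ∀ k : ℕ, k₀ ≤ k → ∀ (s : ℕ) (y : Fin k → ℝ),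
  ((pat (Fd d) s k y).ncard : ℝ) ≤ Real.exp (ε * k)

/-- the type of the assembly package: `t_RC : S_AL → S_SS → S_TU → S_PT → S_RC` -/
def S_RCA : Prop := S_AL → S_SS → S_TU → S_PT → S_RC

end Pool.Agent.P8H60.BC
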