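import Pool.Agent.P8H60.LM.Lin2

/-! # The joint law of the fluctuations at well separated positions -/

set_option autoImplicit false

namespace Pool.Agent.P8H60.BC

open Filter Topology MeasureTheory Complex
open Pool.Agent.Y743.CL (G G_cont VS pr pr_apply Pr mem_Pr rc er XK rc_bd)
open Pool.Agent.R321.QA
open Pool.Agent.R846.VS (Dd)
open Pool.Agent.P8H60.LM (S_TW ZL ZL_meas Pos cfL)
open Pool.Agent.P8H60.NR (levy_closed)
open SG (NZ)

variable {lam C : ℝ} {a T : ℕ → ℝ}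

/-- the correction factor -/
noncomputable def cf (K : ℕ) : ℝ := (1 - 1 / Real.sqrt (K + 1)) / K

/-- the weights -/
noncomputable def wt {K : ℕ} (β : Fin K → ℝ) : Fin (K + 1) → ℝ :=
  Fin.cons (-(∑ k, β k) / Real.sqrt (K + 1)) (fun i => β i - cf K * ∑ k, β k)

lemma cf_mul {K : ℕ} (hK : 1 ≤ K) : cf K * K = 1 - 1 / Real.sqrt (K + 1) := by
  have hK0 : (0 : ℝ) < K := by exact_mod_cast hK
  unfold cf
  field_simp

lemma wt_sum {K : ℕ} (hK : 1 ≤ K) (β : Fin K → ℝ) : ∑ j, wt β j = 0 := by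
  unfold wt
  rw [Fin.sum_univ_succ]
  simp only [Fin.cons_zero, Fin.cons_succ, Finset.sum_sub_distrib, Finset.sum_const, Finset.card_univ,
    Fintype.card_fin, nsmul_eq_mul]
  have h := cf_mul hK
  set S := ∑ k, β k
  have e1 : (K : ℝ) * (cf K * S) = (cf K * K) * S := by ring
  rw [e1, h]
  ring

lemma wt_sq {K : ℕ} (hK : 1 ≤ K) (β : Fin K → ℝ) : ∑ j, wt β j ^ 2 = ∑ k, β k ^ 2 := by
  have hK0 : (0 : ℝ) < K := by exact_mod_cast hK
  unfold wt
  rw [Fin.sum_univ_succ]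
  simp only [Fin.cons_zero, Fin.cons_succ]
  set S := ∑ k, β k with hS
  have e1 : ∑ i, (β i - cf K * S) ^ 2 = ∑ i, β i ^ 2 - 2 * cf K * S * S + K * (cf K * S) ^ 2 := by
    have e2 : ∀ i, (β i - cf K * S) ^ 2 = β i ^ 2 - 2 * cf K * S * β i + (cf K * S) ^ 2 := fun i => by ring
    simp only [e2, Finset.sum_add_distrib, Finset.sum_sub_distrib, ← Finset.mul_sum, Finset.sum_const,
      Finset.card_univ, Fintype.card_fin, nsmul_eq_mul, ← hS]
  rw [e1]
  set u := Real.sqrt (K + 1) with hu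
  have hu0 : 0 < u := Real.sqrt_pos.2 (by linarith)
  have hu2 : u ^ 2 = K + 1 := Real.sq_sqrt (by linarith)
  have hc : cf K = (1 - 1 / u) / K := rfl
  have key : S ^ 2 / u ^ 2 - 2 * cf K * S * S + K * (cf K * S) ^ 2 = 0 := by
    rw [hc]
    have hKu : (K : ℝ) = u ^ 2 - 1 := by linarith
    have hne : u ^ 2 - 1 ≠ 0 := by rw [← hKu]; exact hK0.ne'
    rw [hKu]
    field_simp
    ring
  have e3 : (-S / u) ^ 2 = S ^ 2 / u ^ 2 := by rw [div_pow, neg_sq]
  rw [e3]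
  linarith

/-- the normalised fluctuation at the position `y` -/
noncomputable def Zf (a T t y : ℝ) : ℝ := -(Real.sqrt 2 * (Real.pi / Real.sqrt (Real.log a) * Dd T t y))

/-- the common part -/
noncomputable def tau {K : ℕ} (a T t : ℝ) (x : Fin (K + 1) → ℝ) : ℝ :=
  1 / Real.sqrt (K + 1) * Zf a T t (x 0) + cf K * ∑ k : Fin K, Zf a T t (x k.succ)

/-- the vector of the normalised fluctuations -/
noncomputable def zv {K : ℕ} (a T : ℝ) (x : Fin (K + 1) → ℝ) (t : ℝ) (i : Fin K) : ℝ :=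
  Zf a T t (x i.succ) - tau a T t x

lemma Zf_meas (a T y : ℝ) : Measurable fun t => Zf a T t y := by
  unfold Zf Dd
  have h1 : Measurable fun t : ℝ => (NZ t : ℝ) := measurable_from_nat.comp (SG.NZ_mono.measurable)
  exact (Measurable.const_mul (Measurable.const_mul
    (((h1.comp (measurable_id.add_const _)).sub h1).sub_const _) _) _).neg

lemma zv_meas {K : ℕ} (a T : ℝ) (x : Fin (K + 1) → ℝ) : Measurable (zv a T x) := by
  refine measurable_pi_iff.2 fun i => ?_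
  unfold zv tau
  exact (Zf_meas _ _ _).sub (((Zf_meas _ _ _).const_mul _).add
    ((Finset.measurable_fun_sum _ fun k _ => Zf_meas _ _ _).const_mul _))

lemma zv_form {K : ℕ} (a T t : ℝ) (x : Fin (K + 1) → ℝ) (β : Fin K → ℝ) :
    ∑ i, β i * zv a T x t i = -ZL a T x (wt β) t := by
  unfold zv ZL tau wt
  rw [Fin.sum_univ_succ]
  simp only [Fin.cons_zero, Fin.cons_succ]
  set S := ∑ k, β k with hS
  have e0 : ∀ y, Dd T t y = Dd T t y := fun y => rfl
  have e1 : ∑ i, β i * (Zf a T t (x i.succ) - (1 / Real.sqrt (K + 1) * Zf a T t (x 0) +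
      cf K * ∑ k : Fin K, Zf a T t (x k.succ))) = ∑ i, β i * Zf a T t (x i.succ) -
      S * (1 / Real.sqrt (K + 1) * Zf a T t (x 0) + cf K * ∑ k : Fin K, Zf a T t (x k.succ)) := by
    simp only [mul_sub, Finset.sum_sub_distrib]
    rw [← Finset.sum_mul]
  have e2 : ∑ i, (β i - cf K * S) * Dd T t (x i.succ) = ∑ i, β i * Dd T t (x i.succ) -
      cf K * S * ∑ i, Dd T t (x (Fin.succ i)) := by
    simp only [sub_mul, Finset.sum_sub_distrib]
    rw [← Finset.mul_sum]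
  rw [e1, e2]
  unfold Zf
  have e3 : ∑ i, β i * -(Real.sqrt 2 * (Real.pi / Real.sqrt (Real.log a) * Dd T t (x i.succ))) =
      -(Real.sqrt 2 * (Real.pi / Real.sqrt (Real.log a) * ∑ i, β i * Dd T t (x i.succ))) := by
    rw [Finset.mul_sum, Finset.mul_sum, ← Finset.sum_neg_distrib]
    exact Finset.sum_congr rfl fun i _ => by ring
  have e4 : ∑ k : Fin K, -(Real.sqrt 2 * (Real.pi / Real.sqrt (Real.log a) * Dd T t (x k.succ))) =
      -(Real.sqrt 2 * (Real.pi / Real.sqrt (Real.log a) * ∑ i : Fin K, Dd T t (x i.succ))) := by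
    rw [Finset.mul_sum, Finset.mul_sum, ← Finset.sum_neg_distrib]
  rw [e3, e4]
  ring

/-- the standing assumptions on the positions -/
structure PX (κ : ℝ) {K : ℕ} (a : ℝ) (x : Fin (K + 1) → ℝ) : Prop where
  lo : ∀ i, κ * a ≤ x i
  hi : ∀ i, x i ≤ a
  sep : ∀ i k, i ≠ k → κ * a ≤ |x i - x k|

/-- **the joint characteristic function** -/
theorem cfZ (hTW : S_TW) (h : SD lam C a T) {κ : ℝ} (hκ : 0 < κ) (hκa : ∀ j, lam ≤ κ * a j) {K : ℕ}
    (hK : 1 ≤ K) (x : ℕ → Fin (K + 1) → ℝ) (hp : ∀ j, PX κ (a j) (x j)) (ξ : Fin K → ℝ) :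
    Tendsto (fun j => ((1 / T j : ℝ) : ℂ) * ∫ t in (T j)..(2 * T j),
      cexp (I * ((∑ k, ξ k * zv (a j) (T j) (x j) t k : ℝ) : ℂ))) atTop
    (𝓝 (cexp ((-(∑ k, ξ k ^ 2) / 2 : ℝ) : ℂ))) := by
  have hT0 : ∀ j, 0 < T j := fun j => by linarith [h.T10 j]
  rcases (Finset.sum_nonneg fun k _ => sq_nonneg (ξ k) : 0 ≤ ∑ k, ξ k ^ 2).eq_or_lt with h0 | hpos
  · have hz : ∀ k, ξ k = 0 := by
      intro k
      have := (Finset.sum_eq_zero_iff_of_nonneg (fun k _ => sq_nonneg (ξ k))).1 h0.symm k (Finset.mem_univ k)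
      exact pow_eq_zero_iff (two_ne_zero) |>.1 this
    rw [← h0]
    simp only [neg_zero, zero_div, Complex.ofReal_zero, Complex.exp_zero]
    refine tendsto_const_nhds.congr fun j => ?_
    have e1 : ∀ t, cexp (I * ((∑ k, ξ k * zv (a j) (T j) (x j) t k : ℝ) : ℂ)) = 1 := by
      intro t
      have : ∑ k, ξ k * zv (a j) (T j) (x j) t k = 0 :=
        Finset.sum_eq_zero fun k _ => by rw [hz k, zero_mul]
      rw [this]
      simp
    simp only [e1]
    rw [intervalIntegral.integral_const]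
    have e2 : 2 * T j - T j = T j := by ring
    have := (hT0 j).ne'
    rw [e2, Complex.real_smul, mul_one, ← Complex.ofReal_mul, one_div, inv_mul_cancel₀ this]
    simp
  · set ρ := Real.sqrt (∑ k, ξ k ^ 2) with hρ
    have hρ0 : 0 < ρ := Real.sqrt_pos.2 hpos
    have hρ2 : ρ ^ 2 = ∑ k, ξ k ^ 2 := Real.sq_sqrt hpos.le
    have hP : ∀ j, Pos κ (a j) (x j) (fun i => wt ξ i / ρ) := by
      intro j
      refine ⟨(hp j).lo, (hp j).hi, (hp j).sep, ?_, ?_⟩
      · rw [← Finset.sum_div, wt_sum hK, zero_div]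
      · simp only [div_pow]
        rw [← Finset.sum_div, wt_sq hK, hρ2, div_self hpos.ne']
    have h1 := cfL hTW h hκ hκa x (fun _ i => wt ξ i / ρ) hP (-ρ)
    rw [neg_sq, hρ2] at h1
    refine h1.congr fun j => ?_
    congr 1
    refine intervalIntegral.integral_congr fun t _ => ?_
    have e1 : -ρ * ZL (a j) (T j) (x j) (fun i => wt ξ i / ρ) t = ∑ k, ξ k * zv (a j) (T j) (x j) t k := by
      rw [zv_form]
      unfold ZL
      have e2 : ∑ i, wt ξ i / ρ * Dd (T j) t (x j i) = (∑ i, wt ξ i * Dd (T j) t (x j i)) / ρ := by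
        rw [Finset.sum_div]
        exact Finset.sum_congr rfl fun i _ => by ring
      rw [e2]
      field_simp
    simp only [e1]

/-- **the joint law, uniform version for finitely many closed sets** -/
theorem joint_x (hTW : S_TW) (B : ℝ) (hB : 1 ≤ B) {κ : ℝ} (hκ : 0 < κ) {K : ℕ} (hK : 1 ≤ K)
    {ι : Type} [Finite ι] (F : ι → Set (Fin K → ℝ)) (hF : ∀ i, IsClosed (F i)) {η ρ : ℝ} (hρ : 0 < ρ)
    (hη : ∀ i, (Measure.pi fun _ : Fin K => ProbabilityTheory.gaussianReal 0 1).real (F i) ≤ η) :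
    ∃ R : ℝ, 3 ≤ R ∧ ∀ a T : ℝ, R ≤ a → 1 ≤ T → a * Real.log a ≤ B * Real.log T →
    ∀ x : Fin (K + 1) → ℝ, PX κ a x → ∀ i,
    volume {t ∈ Set.Icc T (2 * T) | zv a T x t ∈ F i} ≤ ENNReal.ofReal ((η + ρ) * T) := by
  obtain ⟨A0, lam, C, hA0, hseq⟩ := sd_mk B hB
  by_contra hcon
  push Not at hcon
  have hch : ∀ j : ℕ, ∃ y : (ℝ × ℝ) × (Fin (K + 1) → ℝ), max A0 (lam / κ) + j ≤ y.1.1 ∧ 1 ≤ y.1.2 ∧
      y.1.1 * Real.log y.1.1 ≤ B * Real.log y.1.2 ∧ PX κ y.1.1 y.2 ∧ ∃ i : ι,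
      ENNReal.ofReal ((η + ρ) * y.1.2) <
        volume {t ∈ Set.Icc y.1.2 (2 * y.1.2) | zv y.1.1 y.1.2 y.2 t ∈ F i} := by
    intro j
    obtain ⟨a, T, h1, h2, h3, x, h4, i, h5⟩ := hcon (max A0 (lam / κ) + j)
      (by
        have : (0 : ℝ) ≤ j := Nat.cast_nonneg j
        have := le_max_left A0 (lam / κ)
        linarith)
    exact ⟨((a, T), x), h1, h2, h3, h4, i, h5⟩
  choose y hy using hch
  have hj0 : ∀ j : ℕ, (0 : ℝ) ≤ j := fun j => Nat.cast_nonneg j
  have hsd := hseq (fun j => (y j).1.1) (fun j => (y j).1.2)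
    (fun j => by
      have h1 := (hy j).1
      have h2 := le_max_left A0 (lam / κ)
      have h3 := hj0 j
      linarith) (fun j => (hy j).2.1)
    (tendsto_atTop_mono (fun j => by
      have h1 := (hy j).1
      have h2 := le_max_left A0 (lam / κ)
      linarith) tendsto_natCast_atTop_atTop)
    (fun j => (hy j).2.2.1)
  have h : ∀ i, ∀ᶠ j in atTop, volume {t ∈ Set.Icc (y j).1.2 (2 * (y j).1.2) |
      zv (y j).1.1 (y j).1.2 (y j).2 t ∈ F i} ≤ ENNReal.ofReal ((η + ρ) * (y j).1.2) := fun i =>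
    levy_closed (fun j => (y j).1.2) (fun j => by have := (hy j).2.1; linarith)
    (fun j t => zv (y j).1.1 (y j).1.2 (y j).2 t) (fun j => zv_meas _ _ _)
    (fun ξ => cfZ hTW hsd hκ (fun j => by
      have h1 := (hy j).1
      have h2 := le_max_right A0 (lam / κ)
      have h3 := hj0 j
      have h4 : lam / κ ≤ (y j).1.1 := by linarith
      rw [div_le_iff₀ hκ] at h4
      linarith) hK (fun j => (y j).2) (fun j => (hy j).2.2.2.1) ξ) (F i) (hF i) (hη i) hρ
  obtain ⟨j, hj⟩ := (eventually_all.2 h).exists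
  obtain ⟨i, hi⟩ := (hy j).2.2.2.2
  exact absurd hi (not_lt.2 (hj i))

end Pool.Agent.P8H60.BC
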